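import Pool.Agent.Y110.FJ.Stm
import Pool.Agent.Y430.SS.Lf

/-!
# Amalgamated products over locally finite groups
-/

set_option autoImplicit false

namespace Pool.Agent.R941.FJ

open Pool.Agent.Y110.FJ
open Pool.Agent.Y462.SS (Closed)
open Monoid

variable {C : ∀ (G : Type) [Group G], Prop}

/-- a homomorphism descends to a quotient -/
theorem desc {P Q H : Type} [Group P] [Group Q] [Group H] (q : P →* Q)
    (hq : Function.Surjective q) (u : P →* H) (hk : q.ker ≤ u.ker) :
    ∃ h : Q →* H, ∀ x, h (q x) = u x := by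
  refine ⟨q.liftOfSurjective hq ⟨u, hk⟩, fun x => ?_⟩
  exact MonoidHom.liftOfRightInverse_comp_apply q _ _ ⟨u, hk⟩ x

/-- a directed union of sets of relations -/
theorem colim_quot (hC : Closed C) {F : Type} [Group F] {I : Type} [Preorder I] [Nonempty I]
    (hI : ∀ i j : I, ∃ k, i ≤ k ∧ j ≤ k) (R : I → Set F) (hR : ∀ i j, i ≤ j → R i ⊆ R j)
    (h : ∀ i, C (F ⧸ Subgroup.normalClosure (R i))) :
    C (F ⧸ Subgroup.normalClosure (⋃ i, R i)) := by
  have hmono : ∀ i j, i ≤ j → Subgroup.normalClosure (R i) ≤ Subgroup.normalClosure (R j) :=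
    fun i j hij => Subgroup.normalClosure_mono (hR i j hij)
  have hle : ∀ i, Subgroup.normalClosure (R i) ≤ Subgroup.normalClosure (⋃ i, R i) :=
    fun i => Subgroup.normalClosure_mono (Set.subset_iUnion R i)
  have hdir : Directed (· ≤ ·) fun i => Subgroup.normalClosure (R i) := by
    intro i j
    obtain ⟨k, hk, hk'⟩ := hI i j
    exact ⟨k, hmono i k hk, hmono j k hk'⟩
  have hmem : ∀ x ∈ Subgroup.normalClosure (⋃ i, R i), ∃ i, x ∈ Subgroup.normalClosure (R i) := by
    intro x hx
    have hn : (⨆ i, Subgroup.normalClosure (R i)).Normal := by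
      refine ⟨fun n hn g => ?_⟩
      rw [Subgroup.mem_iSup_of_directed hdir] at hn ⊢
      obtain ⟨i, hi⟩ := hn
      exact ⟨i, Subgroup.Normal.conj_mem inferInstance n hi g⟩
    have h1 : Subgroup.normalClosure (⋃ i, R i) ≤ ⨆ i, Subgroup.normalClosure (R i) := by
      apply Subgroup.normalClosure_le_normal
      refine Set.iUnion_subset fun i y hy => ?_
      exact (le_iSup (fun i => Subgroup.normalClosure (R i)) i) (Subgroup.subset_normalClosure hy)
    exact (Subgroup.mem_iSup_of_directed hdir).1 (h1 hx)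
  have hN : ∀ i, ∃ (Q : Type) (_ : Group Q) (q : F →* Q), Function.Surjective q ∧
      q.ker = Subgroup.normalClosure (R i) ∧ C Q := fun i =>
    ⟨_, inferInstance, QuotientGroup.mk' _, QuotientGroup.mk'_surjective _,
      QuotientGroup.ker_mk' _, h i⟩
  choose Q iQ q hq hker hCQ using hN
  obtain ⟨P, _, p, hp, hkerp, hP⟩ : ∃ (P : Type) (_ : Group P) (p : F →* P),
      Function.Surjective p ∧ p.ker = Subgroup.normalClosure (⋃ i, R i) ∧ (C P → C (F ⧸
        Subgroup.normalClosure (⋃ i, R i))) :=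
    ⟨_, inferInstance, QuotientGroup.mk' _, QuotientGroup.mk'_surjective _,
      QuotientGroup.ker_mk' _, id⟩
  apply hP
  have ht : ∀ i j, i ≤ j → ∃ t : Q i →* Q j, ∀ x, t (q i x) = q j x := fun i j hij =>
    desc (q i) (hq i) (q j) (by rw [hker, hker]; exact hmono i j hij)
  choose t ht using ht
  have hs : ∀ i, ∃ s : Q i →* P, ∀ x, s (q i x) = p x := fun i =>
    desc (q i) (hq i) p (by rw [hker, hkerp]; exact hle i)
  choose s hs using hs
  refine hC.colim I hI Q t P s ?_ ?_ ?_ ?_ ?_ hCQ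
  · intro i _ x
    obtain ⟨y, rfl⟩ := hq i x
    rw [ht]
  · intro i j k _ _ x
    obtain ⟨y, rfl⟩ := hq i x
    rw [ht, ht, ht]
  · intro i j _ x
    obtain ⟨y, rfl⟩ := hq i x
    rw [ht, hs, hs]
  · intro y
    obtain ⟨z, rfl⟩ := hp y
    exact ⟨Classical.arbitrary I, q _ z, hs _ _⟩
  · intro i x hx
    obtain ⟨y, rfl⟩ := hq i x
    rw [hs] at hx
    have h1 : y ∈ p.ker := hx
    rw [hkerp] at h1
    obtain ⟨j, hj⟩ := hmem y h1
    obtain ⟨k, hk, hk'⟩ := hI i j
    refine ⟨k, hk, ?_⟩
    rw [ht]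
    have h2 : y ∈ (q k).ker := by
      rw [hker]
      exact hmono j k hk' hj
    exact h2

/-- a class of groups which is closed under isomorphisms -/
def Iso (V : ∀ (G : Type) [Group G], Prop) : Prop :=
  ∀ (G H : Type) [Group G] [Group H], (G ≃* H) → V G → V H

/-- `C` contains the amalgamated products and HNN extensions with vertex groups in `V` and edge groups
in `E` -/
structure Graphs (V E C : ∀ (G : Type) [Group G], Prop) : Prop where
  isoV : Iso V
  isoE : Iso E
  amg : ∀ (G : Type) [Group G] (A B K : Subgroup G), Amg A B K → E K → V A → V B → C G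
  hnn : ∀ (G : Type) [Group G] (A B : Subgroup G) (φ : A ≃* B), E A → V G →
    C (HNNExtension G A B φ)

variable {V E : ∀ (G : Type) [Group G], Prop}

section amalgam

variable {G : Type} [Group G] (A B K : Subgroup G)

/-- the relations which identify the copies of the elements of `L` in `A` and `B` -/
def relA (L : Subgroup G) : Set (Coprod A B) :=
  {r | ∃ (a : A) (b : B), (a : G) = b ∧ (a : G) ∈ L ∧ r = Coprod.inl a * (Coprod.inr b)⁻¹}

theorem relA_le {Q : Type} [Group Q] (f : Coprod A B →* Q) (L : Subgroup G)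
    (h : ∀ (a : A) (b : B), (a : G) = b → (a : G) ∈ L → f (Coprod.inl a) = f (Coprod.inr b)) :
    relA A B L ⊆ f.ker := by
  rintro _ ⟨a, b, hab, hL, rfl⟩
  show f (Coprod.inl a * (Coprod.inr b)⁻¹) = 1
  rw [map_mul, map_inv, h a b hab hL, mul_inv_cancel]

/-- the map to `G` -/
def toG : Coprod A B →* G := Coprod.lift A.subtype B.subtype

theorem toG_inl (a : A) : toG A B (Coprod.inl a) = a := by
  rw [toG, Coprod.lift_apply_inl]; rfl

theorem toG_inr (b : B) : toG A B (Coprod.inr b) = b := by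
  rw [toG, Coprod.lift_apply_inr]; rfl

theorem fin_step (hF : Graphs V E C) (hAmg : Amg A B K) (L : Subgroup G)
    (hL : L ≤ K) (hfin : E L) (hA : V A) (hB : V B) {Q : Type} [Group Q]
    (q : Coprod A B →* Q) (hq : Function.Surjective q)
    (hker : q.ker = Subgroup.normalClosure (relA A B L)) : C Q := by
  have hrel : ∀ (a : A) (b : B), (a : G) = b → (a : G) ∈ L → q (Coprod.inl a) = q (Coprod.inr b) := by
    intro a b hab ha
    have h1 : Coprod.inl a * (Coprod.inr b)⁻¹ ∈ q.ker := by
      rw [hker]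
      exact Subgroup.subset_normalClosure ⟨a, b, hab, ha, rfl⟩
    have h2 : q (Coprod.inl a * (Coprod.inr b)⁻¹) = 1 := h1
    rwa [map_mul, map_inv, mul_inv_eq_one] at h2
  obtain ⟨p, hp⟩ := desc q hq (toG A B) (by
    rw [hker]
    refine Subgroup.normalClosure_le_normal (relA_le A B _ L fun a b hab _ => ?_)
    rw [toG_inl, toG_inr, hab])
  have hinjA : Function.Injective (q.comp Coprod.inl : A →* Q) := by
    intro a a' h
    have h1 := congrArg p h
    rw [MonoidHom.comp_apply, MonoidHom.comp_apply, hp, hp, toG_inl, toG_inl] at h1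
    exact Subtype.ext h1
  have hinjB : Function.Injective (q.comp Coprod.inr : B →* Q) := by
    intro a a' h
    have h1 := congrArg p h
    rw [MonoidHom.comp_apply, MonoidHom.comp_apply, hp, hp, toG_inr, toG_inr] at h1
    exact Subtype.ext h1
  refine hF.amg Q (q.comp Coprod.inl : A →* Q).range (q.comp Coprod.inr : B →* Q).range
    ((L.subgroupOf A).map (q.comp Coprod.inl : A →* Q)) ⟨?_, ?_, ?_, ?_⟩ ?_ ?_ ?_
  · rintro _ ⟨a, _, rfl⟩
    exact ⟨a, rfl⟩
  · rintro _ ⟨a, ha, rfl⟩
    have hb : (a : G) ∈ B := hAmg.le_right (hL ha)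
    exact ⟨⟨a, hb⟩, (hrel a ⟨a, hb⟩ rfl ha).symm⟩
  · rw [eq_top_iff]
    intro x _
    obtain ⟨y, rfl⟩ := hq x
    induction y using Coprod.induction_on with
    | inl a => exact Subgroup.mem_sup_left ⟨a, rfl⟩
    | inr b => exact Subgroup.mem_sup_right ⟨b, rfl⟩
    | mul x y hx hy =>
      rw [map_mul]
      exact mul_mem (hx trivial) (hy trivial)
  · intro H _ f g hfg
    obtain ⟨h, hh⟩ := desc q hq (Coprod.lift
      (f.comp (q.comp Coprod.inl : A →* Q).rangeRestrict)
      (g.comp (q.comp Coprod.inr : B →* Q).rangeRestrict)) (by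
      rw [hker]
      refine Subgroup.normalClosure_le_normal (relA_le A B _ L fun a b hab ha => ?_)
      rw [Coprod.lift_apply_inl, Coprod.lift_apply_inr]
      have h1 := hfg (q (Coprod.inl a)) ⟨a, ha, rfl⟩
      refine Eq.trans h1 ?_
      show g _ = g _
      congr 1
      exact Subtype.ext (hrel a b hab ha))
    refine ⟨h, ?_, ?_⟩
    · rintro ⟨_, a, rfl⟩
      have h1 := hh (Coprod.inl a)
      rw [Coprod.lift_apply_inl] at h1
      exact h1
    · rintro ⟨_, a, rfl⟩
      have h1 := hh (Coprod.inr a)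
      rw [Coprod.lift_apply_inr] at h1
      exact h1
  · exact hF.isoE _ _ ((Subgroup.subgroupOfEquivOfLe (hL.trans hAmg.le_left)).symm.trans
      ((L.subgroupOf A).equivMapOfInjective (q.comp Coprod.inl : A →* Q) hinjA)) hfin
  · exact hF.isoV _ _ (MonoidHom.ofInjective hinjA) hA
  · exact hF.isoV _ _ (MonoidHom.ofInjective hinjB) hB

/-- **amalgamated products over directed unions of subgroups** -/
theorem amg_lf (hF : Graphs V E C) (hC : Closed C) (hAmg : Amg A B K)
    (hlf : ∀ S : Set G, S.Finite → S ⊆ K → E (Subgroup.closure S))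
    (hA : V A) (hB : V B) : C G := by
  classical
  have h1 : C (Coprod A B ⧸ Subgroup.normalClosure
      (⋃ S : Finset K, relA A B (Subgroup.closure (Subtype.val '' (S : Set K))))) := by
    refine colim_quot hC (fun i j => ⟨i ∪ j, Finset.subset_union_left, Finset.subset_union_right⟩)
      _ (fun i j hij => ?_) fun S => ?_
    · rintro _ ⟨a, b, hab, ha, rfl⟩
      exact ⟨a, b, hab, Subgroup.closure_mono (Set.image_mono (by exact_mod_cast hij)) ha, rfl⟩
    · have hE : Subtype.val '' (S : Set K) ⊆ (K : Set G) := by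
        rintro _ ⟨x, _, rfl⟩
        exact x.2
      exact fin_step A B K hF hAmg _ ((Subgroup.closure_le K).2 hE)
        (hlf _ (S.finite_toSet.image _) hE) hA hB (QuotientGroup.mk' _)
        (QuotientGroup.mk'_surjective _) (QuotientGroup.ker_mk' _)
  -- the map from `G`
  obtain ⟨R, hR⟩ : ∃ R : Set (Coprod A B), R = ⋃ S : Finset K,
    relA A B (Subgroup.closure (Subtype.val '' (S : Set K))) := ⟨_, rfl⟩
  rw [← hR] at h1
  obtain ⟨Q, _, q, hq, hker, hCQ⟩ : ∃ (Q : Type) (_ : Group Q) (q : Coprod A B →* Q),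
      Function.Surjective q ∧ q.ker = Subgroup.normalClosure R ∧ C Q :=
    ⟨_, inferInstance, QuotientGroup.mk' _, QuotientGroup.mk'_surjective _,
      QuotientGroup.ker_mk' _, h1⟩
  obtain ⟨h, hh1, hh2⟩ := hAmg.univ _ (q.comp Coprod.inl) (q.comp Coprod.inr) (by
    intro c hc
    have h2 : Coprod.inl ⟨c, hAmg.le_left hc⟩ * (Coprod.inr ⟨c, hAmg.le_right hc⟩)⁻¹ ∈ q.ker := by
      rw [hker]
      refine Subgroup.subset_normalClosure ?_
      rw [hR]
      refine Set.mem_iUnion.2 ⟨{⟨c, hc⟩}, _, _, rfl, Subgroup.subset_closure ?_, rfl⟩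
      exact ⟨⟨c, hc⟩, by simp, rfl⟩
    have h3 : q (Coprod.inl ⟨c, hAmg.le_left hc⟩ * (Coprod.inr ⟨c, hAmg.le_right hc⟩)⁻¹) = 1 := h2
    rwa [map_mul, map_inv, mul_inv_eq_one] at h3)
  obtain ⟨f, hf⟩ := desc q hq (toG A B) (by
    rw [hker, hR]
    refine Subgroup.normalClosure_le_normal (Set.iUnion_subset fun _ =>
      relA_le A B _ _ fun a b hab _ => ?_)
    rw [toG_inl, toG_inr, hab])
  have hinj : Function.Injective h := by
    have h4 : (⊤ : Subgroup G) ≤ MonoidHom.eqLocus (f.comp h) (MonoidHom.id G) := by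
      rw [← hAmg.gen]
      refine sup_le ?_ ?_
      · intro a ha
        show f (h a) = a
        rw [hh1 ⟨a, ha⟩, MonoidHom.comp_apply, hf, toG_inl]
      · intro a ha
        show f (h a) = a
        rw [hh2 ⟨a, ha⟩, MonoidHom.comp_apply, hf, toG_inr]
    intro x y hxy
    have h5 : f (h x) = f (h y) := by rw [hxy]
    have h6 : ∀ z, f (h z) = z := fun z => h4 (Subgroup.mem_top z)
    rwa [h6, h6] at h5
  exact hC.of_injective _ _ h hinj hCQ

end amalgam

end Pool.Agent.R941.FJ
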