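import Pool.Agent.R779.FJ.Col
import Pool.Agent.Y812.SS.Wr

/-!
# Extensions by restricted direct products
-/

set_option autoImplicit false

namespace Pool.Agent.R941.FJ

open Pool.Agent.Y110.FJ
open Pool.Agent.Y462.SS (Closed Wr)

/-- the subgroup `N` of `G` is the restricted direct product of the subgroups `K i`, and the group `G`
permutes them by conjugation according to its action on the set of indices -/
structure IsRdp {G I : Type} [Group G] [MulAction G I] (N : Subgroup G) (K : I → Subgroup G) :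
    Prop where
  sup : ⨆ i, K i = N
  comm : ∀ i j, i ≠ j → ∀ x ∈ K i, ∀ y ∈ K j, x * y = y * x
  indep : ∀ i, K i ⊓ (⨆ j, ⨆ _ : j ≠ i, K j) = ⊥
  conj : ∀ (g : G) (i : I) (x : G), x ∈ K i → g * x * g⁻¹ ∈ K (g • i)

section proj

variable {G I : Type} [Group G] [MulAction G I] {N : Subgroup G} {K : I → Subgroup G}

/-- the product of the other factors -/
def Kc (K : I → Subgroup G) (i : I) : Subgroup G := ⨆ j, ⨆ _ : j ≠ i, K j

theorem le_Kc {i j : I} (h : j ≠ i) : K j ≤ Kc K i := le_iSup₂_of_le j h le_rfl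

theorem le_N (h : IsRdp N K) (i : I) : K i ≤ N := h.sup ▸ le_iSup K i

theorem Kc_le (h : IsRdp N K) (i : I) : Kc K i ≤ N := iSup₂_le fun j _ => le_N h j

theorem comm' (h : IsRdp N K) {i : I} {x y : G} (hx : x ∈ K i) (hy : y ∈ Kc K i) :
    x * y = y * x := by
  have h1 : Kc K i ≤ Subgroup.centralizer {x} := by
    refine iSup₂_le fun j hj y hy => ?_
    rw [Subgroup.mem_centralizer_singleton_iff]
    exact h.comm j i hj y hy x hx
  exact (Subgroup.mem_centralizer_singleton_iff.1 (h1 hy)).symm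

theorem ex_dec (h : IsRdp N K) (i : I) {n : G} (hn : n ∈ N) :
    ∃ k ∈ K i, ∃ k' ∈ Kc K i, n = k * k' := by
  rw [← h.sup] at hn
  induction hn using Subgroup.iSup_induction' with
  | hp j x hx =>
    by_cases hj : j = i
    · subst hj
      exact ⟨x, hx, 1, one_mem _, (mul_one x).symm⟩
    · exact ⟨1, one_mem _, x, le_Kc hj hx, (one_mul x).symm⟩
  | h1 => exact ⟨1, one_mem _, 1, one_mem _, (mul_one 1).symm⟩
  | hmul x y _ _ hx hy =>
    obtain ⟨a, ha, a', ha', rfl⟩ := hx
    obtain ⟨b, hb, b', hb', rfl⟩ := hy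
    refine ⟨a * b, mul_mem ha hb, a' * b', mul_mem ha' hb', ?_⟩
    have := comm' h hb ha'
    rw [mul_assoc, mul_assoc, ← mul_assoc a' b b', ← this, mul_assoc]

theorem dec_unique (h : IsRdp N K) {i : I} {a a' b b' : G} (ha : a ∈ K i) (ha' : a' ∈ Kc K i)
    (hb : b ∈ K i) (hb' : b' ∈ Kc K i) (heq : a * a' = b * b') : a = b := by
  have h1 : b⁻¹ * a = b' * a'⁻¹ := by
    rw [inv_mul_eq_iff_eq_mul, ← mul_assoc, ← heq, mul_inv_cancel_right]
  have h2 : b⁻¹ * a ∈ K i ⊓ Kc K i :=
    ⟨(K i).mul_mem ((K i).inv_mem hb) ha, h1 ▸ (Kc K i).mul_mem hb' ((Kc K i).inv_mem ha')⟩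
  have h3 : K i ⊓ Kc K i = ⊥ := h.indep i
  rw [h3, Subgroup.mem_bot, inv_mul_eq_one] at h2
  exact h2.symm

/-- the projection -/
noncomputable def pr (h : IsRdp N K) (i : I) : N →* G where
  toFun n := Classical.choose (ex_dec h i n.2)
  map_one' := by
    have h1 := Classical.choose_spec (ex_dec h i (1 : N).2)
    obtain ⟨h2, k', h3, h4⟩ := h1
    exact dec_unique h h2 h3 (one_mem _) (one_mem _) (by rw [← h4]; simp)
  map_mul' x y := by
    obtain ⟨h2, k', h3, h4⟩ := Classical.choose_spec (ex_dec h i (x * y).2)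
    obtain ⟨a2, a', a3, a4⟩ := Classical.choose_spec (ex_dec h i x.2)
    obtain ⟨b2, b', b3, b4⟩ := Classical.choose_spec (ex_dec h i y.2)
    refine dec_unique h h2 h3 (mul_mem a2 b2) (mul_mem a3 b3) ?_
    rw [← h4]
    show (x : G) * (y : G) = _
    have := comm' h b2 a3
    conv_lhs => rw [a4, b4]
    rw [mul_assoc, mul_assoc, ← mul_assoc a' _ b', ← this, mul_assoc]

theorem pr_spec (h : IsRdp N K) (i : I) (n : N) :
    pr h i n ∈ K i ∧ ∃ k' ∈ Kc K i, (n : G) = pr h i n * k' :=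
  Classical.choose_spec (ex_dec h i n.2)

theorem pr_eq (h : IsRdp N K) (i : I) (n : N) {k k' : G} (hk : k ∈ K i) (hk' : k' ∈ Kc K i)
    (hn : (n : G) = k * k') : pr h i n = k := by
  obtain ⟨h1, l, h2, h3⟩ := pr_spec h i n
  exact dec_unique h h1 h2 hk hk' (by rw [← h3, hn])

/-- conjugation on `N` -/
def cjN (N : Subgroup G) [hN : N.Normal] (g : G) (n : N) : N := ⟨g * n * g⁻¹, hN.conj_mem n n.2 g⟩

theorem Kc_conj (h : IsRdp N K) (g : G) (i : I) {x : G} (hx : x ∈ Kc K i) :
    g * x * g⁻¹ ∈ Kc K (g • i) := by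
  have h1 : Kc K i ≤ (Kc K (g • i)).comap (MulAut.conj g).toMonoidHom := by
    refine iSup₂_le fun j hj y hy => ?_
    show g * y * g⁻¹ ∈ Kc K (g • i)
    exact (le_Kc (K := K) (i := g • i) (j := g • j) (fun hji => hj (smul_left_cancel g hji)))
      (h.conj g j y hy)
  exact h1 hx

theorem pr_conj (h : IsRdp N K) [N.Normal] (g : G) (i : I) (n : N) :
    pr h (g • i) (cjN N g n) = g * pr h i n * g⁻¹ := by
  obtain ⟨h1, l, h2, h3⟩ := pr_spec h i n
  refine pr_eq h (g • i) _ (h.conj g i _ h1) (Kc_conj h g i h2) ?_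
  show g * (n : G) * g⁻¹ = _
  rw [h3]
  group

/-- the product of finitely many factors -/
def Kf (K : I → Subgroup G) (J : Set I) : Subgroup G := ⨆ j, ⨆ _ : j ∈ J, K j

theorem Kf_mono {J J' : Set I} (hJ : J ⊆ J') : Kf K J ≤ Kf K J' :=
  iSup₂_le fun j hj => le_iSup₂_of_le j (hJ hj) le_rfl

theorem ex_fin (h : IsRdp N K) {n : G} (hn : n ∈ N) : ∃ J : Set I, J.Finite ∧ n ∈ Kf K J := by
  rw [← h.sup] at hn
  induction hn using Subgroup.iSup_induction' with
  | hp j x hx =>
    exact ⟨{j}, Set.finite_singleton j, (le_iSup₂_of_le j rfl le_rfl : K j ≤ Kf K {j}) hx⟩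
  | h1 => exact ⟨∅, Set.finite_empty, one_mem _⟩
  | hmul x y _ _ hx hy =>
    obtain ⟨J, hJ, hx⟩ := hx
    obtain ⟨J', hJ', hy⟩ := hy
    exact ⟨J ∪ J', hJ.union hJ', mul_mem (Kf_mono Set.subset_union_left hx)
      (Kf_mono Set.subset_union_right hy)⟩

theorem Kf_le_Kc {J : Set I} {i : I} (hi : i ∉ J) : Kf K J ≤ Kc K i :=
  iSup₂_le fun _ hj => le_Kc fun h => hi (h ▸ hj)

theorem pr_Kf (h : IsRdp N K) {J : Set I} {i : I} (hi : i ∉ J) (n : N) (hn : (n : G) ∈ Kf K J) :
    pr h i n = 1 :=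
  pr_eq h i n (one_mem _) (Kf_le_Kc hi hn) (one_mul _).symm

theorem sep (h : IsRdp N K) {J : Set I} (hJ : J.Finite) (n : N) (hn : (n : G) ∈ Kf K J)
    (h1 : ∀ j ∈ J, pr h j n = 1) : n = 1 := by
  induction J, hJ using Set.Finite.induction_on generalizing n with
  | empty =>
    have h2 : Kf K (∅ : Set I) = ⊥ := by simp [Kf]
    rw [h2, Subgroup.mem_bot] at hn
    exact Subtype.ext hn
  | @insert a s ha _ ih =>
    refine ih n ?_ fun j hj => h1 j (Set.mem_insert_of_mem a hj)
    have h2 : ∃ k ∈ K a, ∃ k' ∈ Kf K s, (n : G) = k * k' := by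
      have h3 : Kf K (insert a s) ≤
          { carrier := {x | ∃ k ∈ K a, ∃ k' ∈ Kf K s, x = k * k'}
            one_mem' := ⟨1, one_mem _, 1, one_mem _, (mul_one 1).symm⟩
            mul_mem' := by
              rintro _ _ ⟨k, hk, k', hk', rfl⟩ ⟨l, hl, l', hl', rfl⟩
              refine ⟨k * l, mul_mem hk hl, k' * l', mul_mem hk' hl', ?_⟩
              have := comm' h hl (Kf_le_Kc ha hk')
              rw [mul_assoc, mul_assoc, ← mul_assoc k' l l', ← this, mul_assoc]
            inv_mem' := by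
              rintro _ ⟨k, hk, k', hk', rfl⟩
              refine ⟨k⁻¹, inv_mem hk, k'⁻¹, inv_mem hk', ?_⟩
              have := comm' h hk (Kf_le_Kc ha hk')
              rw [this, mul_inv_rev] : Subgroup G } := by
        refine iSup₂_le fun j hj x hx => ?_
        rcases Set.mem_insert_iff.1 hj with rfl | hj
        · exact ⟨x, hx, 1, one_mem _, (mul_one x).symm⟩
        · exact ⟨1, one_mem _, x, (le_iSup₂_of_le j hj le_rfl : K j ≤ Kf K s) hx,
            (one_mul x).symm⟩
      exact h3 hn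
    obtain ⟨k, hk, k', hk', h4⟩ := h2
    have h5 : pr h a n = k := pr_eq h a n hk (Kf_le_Kc ha hk') h4
    rw [h1 a (Set.mem_insert a s)] at h5
    rw [h4, ← h5, one_mul]
    exact hk'

end proj

section block

variable {G I : Type} [Group G] [MulAction G I] {N : Subgroup G} {K : I → Subgroup G}

theorem smul_zpow_succ (g : G) (k : ℤ) (i : I) : g ^ (k + 1) • i = g • (g ^ k • i) := by
  rw [← mul_smul, ← zpow_one_add, add_comm]

theorem conj_mem' (h : IsRdp N K) (g : G) (k : ℤ) (i : I) (n : N) :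
    g ^ (-k) * pr h (g ^ k • i) n * g ^ k ∈ K i := by
  have h1 := h.conj (g ^ (-k)) (g ^ k • i) _ (pr_spec h (g ^ k • i) n).1
  rw [← mul_smul, ← zpow_add, neg_add_cancel, zpow_zero, one_smul, zpow_neg, inv_inv] at h1
  rw [zpow_neg]
  exact h1

/-- the coordinates -/
noncomputable def crd (h : IsRdp N K) (g : G) (i : I) (Q : Subgroup G) (hQ : K i ≤ Q) (k : ℤ) :
    N →* Q where
  toFun n := ⟨g ^ (-k) * pr h (g ^ k • i) n * g ^ k, hQ (conj_mem' h g k i n)⟩
  map_one' := by
    apply Subtype.ext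
    show g ^ (-k) * pr h (g ^ k • i) 1 * g ^ k = 1
    rw [map_one, mul_one, ← zpow_add, neg_add_cancel, zpow_zero]
  map_mul' x y := by
    apply Subtype.ext
    show g ^ (-k) * pr h (g ^ k • i) (x * y) * g ^ k =
      (g ^ (-k) * pr h (g ^ k • i) x * g ^ k) * (g ^ (-k) * pr h (g ^ k • i) y * g ^ k)
    rw [map_mul, zpow_neg]
    group

theorem crd_val (h : IsRdp N K) (g : G) (i : I) (Q : Subgroup G) (hQ : K i ≤ Q) (k : ℤ) (n : N) :
    (crd h g i Q hQ k n : G) = g ^ (-k) * pr h (g ^ k • i) n * g ^ k := rfl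

theorem crd_conj (h : IsRdp N K) [N.Normal] (g : G) (i : I) (Q : Subgroup G) (hQ : K i ≤ Q) (k : ℤ)
    (n : N) : crd h g i Q hQ (k + 1) (cjN N g n) = crd h g i Q hQ k n := by
  apply Subtype.ext
  rw [crd_val, crd_val, smul_zpow_succ, pr_conj, neg_add, zpow_add, zpow_add]
  group

theorem crd_one (h : IsRdp N K) (g : G) (i : I) (Q : Subgroup G) (hQ : K i ≤ Q) (k : ℤ)
    (n : N) : crd h g i Q hQ k n = 1 ↔ pr h (g ^ k • i) n = 1 := by
  rw [← Subtype.coe_inj, crd_val]
  constructor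
  · intro h1
    have h2 : pr h (g ^ k • i) n = g ^ k * (g ^ (-k) * pr h (g ^ k • i) n * g ^ k) * g ^ (-k) := by
      rw [zpow_neg]
      group
    rw [h2, h1]
    simp
  · intro h1
    rw [h1]
    simp

/-- the homomorphism to the wreath product -/
noncomputable def wrh (h : IsRdp N K) (g : G) (i : I) (Q : Subgroup G) (hQ : K i ≤ Q) (a : ℤ)
    (L : ℕ) : N →* Wr (Fin (L + 1)) Q where
  toFun n := ⟨fun r => crd h g i Q hQ (a + (r : ℕ)) n, 1⟩
  map_one' := by
    apply Wr.ext
    · funext r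
      exact map_one _
    · rfl
  map_mul' x y := by
    apply Wr.ext
    · funext r
      exact map_mul _ _ _
    · rfl

theorem block (h : IsRdp N K) [N.Normal] (g : G) (i : I) (Q : Subgroup G) (hQ : K i ≤ Q)
    (a : ℤ) (L : ℕ) (q : Q) (x : N)
    (hq : q * crd h g i Q hQ (a + L) x = crd h g i Q hQ a (cjN N g x) * q) :
    (⟨fun r => if r = Fin.last L then q else 1, finRotate (L + 1)⟩ : Wr (Fin (L + 1)) Q) *
        wrh h g i Q hQ a L x =
      wrh h g i Q hQ a L (cjN N g x) *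
        (⟨fun r => if r = Fin.last L then q else 1, finRotate (L + 1)⟩ : Wr (Fin (L + 1)) Q) := by
  apply Wr.ext
  · funext r
    show (if ((1 : Equiv.Perm (Fin (L + 1))) r) = Fin.last L then q else 1) *
        crd h g i Q hQ (a + (r : ℕ)) x =
      crd h g i Q hQ (a + ((finRotate (L + 1) r : Fin (L + 1)) : ℕ)) (cjN N g x) *
        (if r = Fin.last L then q else 1)
    rw [Equiv.Perm.one_apply]
    by_cases hr : r = Fin.last L
    · rw [if_pos hr, hr, finRotate_last, Fin.val_last, Fin.val_zero, Nat.cast_zero, add_zero]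
      exact hq
    · rw [if_neg hr, coe_finRotate_of_ne_last hr, one_mul, mul_one, Nat.cast_add, Nat.cast_one,
        ← add_assoc, crd_conj]
  · show finRotate (L + 1) * 1 = 1 * finRotate (L + 1)
    rw [mul_one, one_mul]

/-- one factor -/
theorem one_factor {C : ∀ (G : Type) [Group G], Prop} (hC : Closed C) (h : IsRdp N K) [N.Normal]
    (hK : ∀ (i : I) (g : G), g • i = i → C ↥(K i ⊔ Subgroup.zpowers g))
    (g : G) (E : Set N) (J : Set I) (hJ : J.Finite)
    (hE : ∀ x ∈ E, (x : G) ∈ Kf K J ∧ (cjN N g x : G) ∈ Kf K J) (i : I) :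
    ∃ (P : Type) (_ : Group P) (f : N →* P) (p : P), C P ∧
      (∀ x ∈ E, p * f x = f (cjN N g x) * p) ∧ (∀ x, f x = 1 → pr h i x = 1) := by
  by_cases hfin : ∃ m : ℕ, g ^ ((m : ℤ) + 1) • i = i
  · obtain ⟨m, hm⟩ := hfin
    obtain ⟨Q, hQd⟩ : ∃ Q : Subgroup G, Q = K i ⊔ Subgroup.zpowers (g ^ ((m : ℤ) + 1)) := ⟨_, rfl⟩
    have hQ : K i ≤ Q := by rw [hQd]; exact le_sup_left
    have hqQ : g ^ ((m : ℤ) + 1) ∈ Q := by
      rw [hQd]; exact Subgroup.mem_sup_right (Subgroup.mem_zpowers _)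
    have hCQ : C Q := by rw [hQd]; exact hK i _ hm
    refine ⟨Wr (Fin (m + 1)) Q, inferInstance, wrh h g i Q hQ 0 m,
      ⟨fun r => if r = Fin.last m then ⟨_, hqQ⟩ else 1, finRotate (m + 1)⟩,
      Pool.Agent.Y812.SS.t_wr C hC _ _ inferInstance hCQ, fun x _ => ?_, fun x hx => ?_⟩
    · refine block h g i Q hQ 0 m ⟨_, hqQ⟩ x ?_
      apply Subtype.ext
      show g ^ ((m : ℤ) + 1) * (crd h g i Q hQ (0 + m) x : G) =
        (crd h g i Q hQ 0 (cjN N g x) : G) * g ^ ((m : ℤ) + 1)
      rw [crd_val, crd_val, zero_add, neg_zero, zpow_zero, one_smul, one_mul, mul_one]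
      have h1 : pr h i (cjN N g x) = g * pr h (g ^ (m : ℤ) • i) x * g⁻¹ := by
        conv_lhs => rw [← hm, smul_zpow_succ]
        exact pr_conj h g _ x
      rw [h1]
      have h2 : g ^ ((m : ℤ) + 1) = g * g ^ (m : ℤ) := by
        rw [add_comm, zpow_one_add]
      rw [h2, zpow_neg]
      group
    · have h1 := congrFun (congrArg Wr.s hx) 0
      have h2 : crd h g i Q hQ (0 + ((0 : Fin (m + 1)) : ℕ)) x = 1 := h1
      rw [crd_one] at h2
      simpa using h2
  · -- an infinite orbit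
    have hinj : Function.Injective (fun k : ℤ => g ^ k • i) := by
      intro k l hkl
      by_contra hne
      apply hfin
      have key : ∀ k l : ℤ, k < l → g ^ k • i = g ^ l • i → ∃ m : ℕ, g ^ ((m : ℤ) + 1) • i = i := by
        intro k l hlt heq
        refine ⟨(l - k - 1).toNat, ?_⟩
        rw [Int.toNat_of_nonneg (by omega)]
        have h1 : (l - k - 1 + 1 : ℤ) = -k + l := by ring
        rw [h1, zpow_add, mul_smul, ← heq, ← mul_smul, ← zpow_add, neg_add_cancel, zpow_zero,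
          one_smul]
      rcases lt_or_gt_of_ne hne with hlt | hlt
      · exact key k l hlt hkl
      · exact key l k hlt hkl.symm
    have hfinJ : {k : ℤ | g ^ k • i ∈ J}.Finite := hJ.preimage hinj.injOn
    obtain ⟨b, hb⟩ := hfinJ.bddAbove
    obtain ⟨a, ha⟩ := hfinJ.bddBelow
    obtain ⟨a', ha'⟩ : ∃ a' : ℤ, a' = min a 0 - 1 := ⟨_, rfl⟩
    obtain ⟨L, hL⟩ : ∃ L : ℕ, (L : ℤ) = max b 0 + 1 - a' := by
      refine ⟨(max b 0 + 1 - a').toNat, Int.toNat_of_nonneg ?_⟩
      have h1 := le_max_right b 0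
      have h2 := min_le_right a 0
      omega
    have hCK : C (K i) := by
      have h1 := hK i 1 (one_smul G i)
      refine hC.of_injective _ _ (Subgroup.inclusion (le_sup_left : K i ≤ _))
        (Subgroup.inclusion_injective _) h1
    refine ⟨Wr (Fin (L + 1)) (K i), inferInstance, wrh h g i (K i) le_rfl a' L,
      ⟨fun r => if r = Fin.last L then 1 else 1, finRotate (L + 1)⟩,
      Pool.Agent.Y812.SS.t_wr C hC _ _ inferInstance hCK, fun x hx => ?_, fun x hx => ?_⟩
    · refine block h g i (K i) le_rfl a' L 1 x ?_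
      rw [one_mul, mul_one]
      have h1 : crd h g i (K i) le_rfl (a' + L) x = 1 := by
        rw [crd_one]
        refine pr_Kf h (fun hmem => ?_) x (hE x hx).1
        have h2 := hb hmem
        have h3 := le_max_left b 0
        omega
      have h2 : crd h g i (K i) le_rfl a' (cjN N g x) = 1 := by
        rw [crd_one]
        refine pr_Kf h (fun hmem => ?_) _ (hE x hx).2
        have h2 := ha hmem
        have h3 := min_le_left a 0
        omega
      rw [h1, h2]
    · have h0 : 0 ≤ -a' := by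
        have := min_le_right a 0
        omega
      have h0' : (-a').toNat < L + 1 := by
        have := le_max_right b 0
        omega
      have h1 := congrFun (congrArg Wr.s hx) ⟨(-a').toNat, h0'⟩
      have h2 : crd h g i (K i) le_rfl (a' + ((-a').toNat : ℕ)) x = 1 := h1
      rw [crd_one, Int.toNat_of_nonneg h0, add_neg_cancel, zpow_zero, one_smul] at h2
      exact h2

/-- finitely many factors -/
theorem many_factors {C : ∀ (G : Type) [Group G], Prop} (hC : Closed C) (h : IsRdp N K) [N.Normal]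
    (hK : ∀ (i : I) (g : G), g • i = i → C ↥(K i ⊔ Subgroup.zpowers g))
    (g : G) (E : Set N) (J : Set I) (hJ : J.Finite)
    (hE : ∀ x ∈ E, (x : G) ∈ Kf K J ∧ (cjN N g x : G) ∈ Kf K J) (J' : Set I) (hJ' : J'.Finite) :
    ∃ (P : Type) (_ : Group P) (f : N →* P) (p : P), C P ∧
      (∀ x ∈ E, p * f x = f (cjN N g x) * p) ∧ (∀ x, f x = 1 → ∀ i ∈ J', pr h i x = 1) := by
  induction J', hJ' using Set.Finite.induction_on with
  | empty =>
    refine ⟨Multiplicative ℤ, inferInstance, 1, 1, hC.int, fun x _ => rfl, ?_⟩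
    intro x _ i hi
    exact absurd hi (Set.notMem_empty i)
  | @insert a s _ _ ih =>
    obtain ⟨P, _, f, p, h1, h2, h3⟩ := ih
    obtain ⟨P', _, f', p', h1', h2', h3'⟩ := one_factor hC h hK g E J hJ hE a
    refine ⟨P × P', inferInstance, f.prod f', (p, p'), hC.prod _ _ h1 h1', fun x hx => ?_, ?_⟩
    · exact Prod.ext (h2 x hx) (h2' x hx)
    · intro x hx i hi
      have h4 : f x = 1 := congrArg Prod.fst hx
      have h5 : f' x = 1 := congrArg Prod.snd hx
      rcases Set.mem_insert_iff.1 hi with rfl | hi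
      · exact h3' x h5
      · exact h3 x h4 i hi

/-- **extensions by restricted direct products** -/
theorem rdp {C : ∀ (G : Type) [Group G], Prop} (hC : ClosedE C) [N.Normal] (h : IsRdp N K)
    (hK : ∀ (i : I) (g : G), g • i = i → C ↥(K i ⊔ Subgroup.zpowers g))
    (hQ : C (G ⧸ N)) : C G := by
  refine Pool.Agent.R779.FJ.t_crit Pool.Agent.Y529.FJ.t_ext
    (Pool.Agent.Y961.FJ.t_perm Pool.Agent.Y529.FJ.t_ext) C hC G N hQ fun g E hE hEN => ?_
  obtain ⟨E', hE'⟩ : ∃ E' : Set N, E' = Subtype.val ⁻¹' E := ⟨_, rfl⟩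
  have hE'f : E'.Finite := by
    rw [hE']
    exact hE.preimage Subtype.val_injective.injOn
  -- a finite set of indices
  have hJ : ∃ J : Set I, J.Finite ∧ ∀ x ∈ E', (x : G) ∈ Kf K J ∧ (cjN N g x : G) ∈ Kf K J := by
    have h1 : ∀ x : N, ∃ J : Set I, J.Finite ∧ (x : G) ∈ Kf K J ∧ (cjN N g x : G) ∈ Kf K J := by
      intro x
      obtain ⟨J, hJ, hx⟩ := ex_fin h x.2
      obtain ⟨J', hJ', hx'⟩ := ex_fin h (cjN N g x).2
      exact ⟨J ∪ J', hJ.union hJ', Kf_mono Set.subset_union_left hx,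
        Kf_mono Set.subset_union_right hx'⟩
    choose j hj using h1
    refine ⟨⋃ x ∈ E', j x, hE'f.biUnion fun x _ => (hj x).1, fun x hx => ?_⟩
    exact ⟨Kf_mono (Set.subset_biUnion_of_mem hx) (hj x).2.1,
      Kf_mono (Set.subset_biUnion_of_mem hx) (hj x).2.2⟩
  obtain ⟨J, hJf, hJ⟩ := hJ
  obtain ⟨P, _, f, p, h1, h2, h3⟩ := many_factors hC.base h hK g E' J hJf hJ J hJf
  have hle : Subgroup.closure (E ∪ (fun x => g * x * g⁻¹) '' E) ≤ N := by
    rw [Subgroup.closure_le]
    refine Set.union_subset hEN ?_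
    rintro _ ⟨x, hx, rfl⟩
    exact Subgroup.Normal.conj_mem inferInstance x (hEN hx) g
  have hle' : Subgroup.closure (E ∪ (fun x => g * x * g⁻¹) '' E) ≤ Kf K J := by
    rw [Subgroup.closure_le]
    refine Set.union_subset ?_ ?_
    · intro x hx
      exact (hJ ⟨x, hEN hx⟩ (by rw [hE']; exact hx)).1
    · rintro _ ⟨x, hx, rfl⟩
      exact (hJ ⟨x, hEN hx⟩ (by rw [hE']; exact hx)).2
  refine ⟨P, inferInstance, f.comp (Subgroup.inclusion hle), p, h1, ?_, ?_⟩
  · rw [injective_iff_map_eq_one]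
    intro x hx
    have h4 := sep h hJf (Subgroup.inclusion hle x) (hle' x.2) (h3 _ hx)
    exact Subtype.ext (congrArg (fun z : N => (z : G)) h4)
  · intro x y hx hy
    have h5 := h2 (Subgroup.inclusion hle x) (by rw [hE']; exact hx)
    have h6 : cjN N g (Subgroup.inclusion hle x) = Subgroup.inclusion hle y :=
      Subtype.ext hy.symm
    rw [h6] at h5
    show f (Subgroup.inclusion hle y) = p * f (Subgroup.inclusion hle x) * p⁻¹
    rw [h5, mul_inv_cancel_right]

end block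

end Pool.Agent.R941.FJ
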