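import Pool.Agent.R941.FJ.Edge

/-!
# HNN extensions with locally finite associated subgroups
-/

set_option autoImplicit false

namespace Pool.Agent.R941.FJ

open Pool.Agent.Y110.FJ
open Pool.Agent.Y462.SS (Closed)
open Monoid

variable {C : ∀ (G : Type) [Group G], Prop}

section hnn

variable {G : Type} [Group G] (A B : Subgroup G) (φ : A ≃* B)

/-- the stable letter -/
def tt : Coprod G (Multiplicative ℤ) := Coprod.inr (Multiplicative.ofAdd 1)

/-- the relations `t a t⁻¹ = φ a` for the elements `a` of `L` -/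
def relH (L : Subgroup G) : Set (Coprod G (Multiplicative ℤ)) :=
  {r | ∃ a : A, (a : G) ∈ L ∧ r = tt * Coprod.inl (a : G) *
    tt⁻¹ * (Coprod.inl ((φ a : B) : G))⁻¹}

theorem relH_le {Q : Type} [Group Q] (f : Coprod G (Multiplicative ℤ) →* Q) (L : Subgroup G)
    (h : ∀ a : A, (a : G) ∈ L → f tt * f (Coprod.inl (a : G)) =
      f (Coprod.inl ((φ a : B) : G)) * f tt) :
    relH A B φ L ⊆ f.ker := by
  rintro _ ⟨a, hL, rfl⟩
  show f (tt * Coprod.inl (a : G) * tt⁻¹ * (Coprod.inl ((φ a : B) : G))⁻¹) = 1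
  rw [map_mul, map_mul, map_mul, map_inv, map_inv, mul_inv_eq_one, mul_inv_eq_iff_eq_mul]
  exact h a hL

theorem relH_rel {Q : Type} [Group Q] (f : Coprod G (Multiplicative ℤ) →* Q) (a : A)
    (h : tt * Coprod.inl (a : G) * tt⁻¹ * (Coprod.inl ((φ a : B) : G))⁻¹ ∈ f.ker) :
    f tt * f (Coprod.inl (a : G)) = f (Coprod.inl ((φ a : B) : G)) * f tt := by
  have h1 : f (tt * Coprod.inl (a : G) * tt⁻¹ * (Coprod.inl ((φ a : B) : G))⁻¹) = 1 := h
  rwa [map_mul, map_mul, map_mul, map_inv, map_inv, mul_inv_eq_one,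
    mul_inv_eq_iff_eq_mul] at h1

/-- the map to a group with an element `t0` -/
theorem exists_u {E : Type} [Group E] (o : G →* E) (t0 : E) :
    ∃ u : Coprod G (Multiplicative ℤ) →* E, u tt = t0 ∧ ∀ g, u (Coprod.inl g) = o g := by
  refine ⟨Coprod.lift o (zpowersHom E t0), ?_, fun g => ?_⟩
  · rw [tt, Coprod.lift_apply_inr]
    exact zpow_one t0
  · rw [Coprod.lift_apply_inl]

theorem u_ext {E : Type} [Group E] (u v : Coprod G (Multiplicative ℤ) →* E)
    (h1 : u tt = v tt) (h2 : ∀ g, u (Coprod.inl g) = v (Coprod.inl g)) (x) : u x = v x := by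
  have h3 : u = v := by
    apply Coprod.hom_ext
    · ext x
      exact h2 x
    · apply MonoidHom.ext_mint
      exact h1
  rw [h3]

/-- the restriction of `φ` -/
noncomputable def resφ (L : Subgroup G) (hL : L ≤ A) :
    L ≃* ((L.subgroupOf A).map φ.toMonoidHom).map B.subtype :=
  (Subgroup.subgroupOfEquivOfLe hL).symm.trans
    (((L.subgroupOf A).equivMapOfInjective φ.toMonoidHom φ.injective).trans
      (Subgroup.equivMapOfInjective _ B.subtype B.subtype_injective))

theorem resφ_coe (L : Subgroup G) (hL : L ≤ A) (x : L) :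
    ((resφ A B φ L hL x : G)) = (φ ⟨x, hL x.2⟩ : G) := rfl

theorem hnn_quot (hC : Closed C) (L : Subgroup G) (hL : L ≤ A) {E : Type} [Group E]
    (o : G →* E) (t0 : E) (hE : ∀ a : L, t0 * o (a : G) = o ((φ ⟨a, hL a.2⟩ : B) : G) * t0)
    (hlift : ∀ (Q : Type) [Group Q] (f : G →* Q) (s : Q),
      (∀ a : L, s * f (a : G) = f ((φ ⟨a, hL a.2⟩ : B) : G) * s) →
      ∃ h : E →* Q, (∀ g, h (o g) = f g) ∧ h t0 = s) (h : C E)
    {Q : Type} [Group Q] (q : Coprod G (Multiplicative ℤ) →* Q)
    (hq : Function.Surjective q) (hker : q.ker = Subgroup.normalClosure (relH A B φ L)) : C Q := by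
  obtain ⟨u, hut, huo⟩ := exists_u o t0
  obtain ⟨f, hf⟩ := desc q hq u (by
    rw [hker]
    refine Subgroup.normalClosure_le_normal (relH_le A B φ u L fun a ha => ?_)
    rw [hut, huo, huo]
    exact hE ⟨a, ha⟩)
  obtain ⟨g, hg1, hg2⟩ := hlift Q (q.comp Coprod.inl) (q tt) (by
    intro a
    refine relH_rel A B φ q ⟨a, hL a.2⟩ ?_
    rw [hker]
    exact Subgroup.subset_normalClosure ⟨⟨a, hL a.2⟩, a.2, rfl⟩)
  refine hC.of_injective _ E f ?_ h
  have h2 : ∀ x, g (f x) = x := by
    intro x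
    obtain ⟨y, rfl⟩ := hq x
    rw [hf]
    exact u_ext (g.comp u) q (by rw [MonoidHom.comp_apply, hut, hg2])
      (fun z => by rw [MonoidHom.comp_apply, huo, hg1]; rfl) y
  exact Function.LeftInverse.injective h2

theorem hnn_lift (L L' : Subgroup G) (ψ : L ≃* L') (Q : Type) [Group Q] (f : G →* Q) (s : Q)
    (h : ∀ a : L, s * f (a : G) = f ((ψ a : L') : G) * s) :
    ∃ h : HNNExtension G L L' ψ →* Q, (∀ g, h (HNNExtension.of g) = f g) ∧
      h HNNExtension.t = s :=
  ⟨HNNExtension.lift f s h, fun _ => HNNExtension.lift_of _ _ _ _, HNNExtension.lift_t _ _ _⟩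

/-- **HNN extensions whose associated subgroups are directed unions** -/
theorem hnn_lf {V E : ∀ (G : Type) [Group G], Prop} (hF : Graphs V E C) (hC : Closed C)
    (hlf : ∀ S : Set G, S.Finite → S ⊆ A → E (Subgroup.closure S))
    (hG : V G) : C (HNNExtension G A B φ) := by
  classical
  have h1 : C (Coprod G (Multiplicative ℤ) ⧸ Subgroup.normalClosure
      (⋃ S : Finset A, relH A B φ (Subgroup.closure (Subtype.val '' (S : Set A))))) := by
    refine colim_quot hC (fun i j => ⟨i ∪ j, Finset.subset_union_left, Finset.subset_union_right⟩)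
      _ (fun i j hij => ?_) fun S => ?_
    · rintro _ ⟨a, ha, rfl⟩
      exact ⟨a, Subgroup.closure_mono (Set.image_mono (by exact_mod_cast hij)) ha, rfl⟩
    · have hE : Subtype.val '' (S : Set A) ⊆ (A : Set G) := by
        rintro _ ⟨x, _, rfl⟩
        exact x.2
      have hle : Subgroup.closure (Subtype.val '' (S : Set A)) ≤ A := (Subgroup.closure_le A).2 hE
      exact hnn_quot A B φ hC _ hle HNNExtension.of HNNExtension.t
        (fun a => HNNExtension.t_mul_of (φ := resφ A B φ _ hle) a)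
        (fun Q _ f s hs => hnn_lift _ _ (resφ A B φ _ hle) Q f s hs)
        (hF.hnn G _ _ _ (hlf _ (S.finite_toSet.image _) hE) hG) (QuotientGroup.mk' _)
        (QuotientGroup.mk'_surjective _) (QuotientGroup.ker_mk' _)
  obtain ⟨R, hR⟩ : ∃ R : Set (Coprod G (Multiplicative ℤ)), R = ⋃ S : Finset A,
    relH A B φ (Subgroup.closure (Subtype.val '' (S : Set A))) := ⟨_, rfl⟩
  rw [← hR] at h1
  obtain ⟨Q, _, q, hq, hker, hCQ⟩ : ∃ (Q : Type) (_ : Group Q)
      (q : Coprod G (Multiplicative ℤ) →* Q),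
      Function.Surjective q ∧ q.ker = Subgroup.normalClosure R ∧ C Q :=
    ⟨_, inferInstance, QuotientGroup.mk' _, QuotientGroup.mk'_surjective _,
      QuotientGroup.ker_mk' _, h1⟩
  obtain ⟨g, hg1, hg2⟩ := hnn_lift A B φ Q (q.comp Coprod.inl) (q tt) (by
    intro a
    refine relH_rel A B φ q a ?_
    rw [hker, hR]
    refine Subgroup.subset_normalClosure ?_
    refine Set.mem_iUnion.2 ⟨{a}, a, Subgroup.subset_closure ?_, rfl⟩
    exact ⟨a, by simp, rfl⟩)
  obtain ⟨u, hut, huo⟩ := exists_u (HNNExtension.of : G →* HNNExtension G A B φ) HNNExtension.t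
  obtain ⟨f, hf⟩ := desc q hq u (by
    rw [hker, hR]
    refine Subgroup.normalClosure_le_normal (Set.iUnion_subset fun _ =>
      relH_le A B φ u _ fun a ha => ?_)
    rw [hut, huo, huo]
    exact HNNExtension.t_mul_of (φ := φ) a)
  refine hC.of_injective _ _ g ?_ hCQ
  have h3 : f.comp g = MonoidHom.id _ := by
    apply HNNExtension.hom_ext
    · ext x
      show f (g (HNNExtension.of x)) = HNNExtension.of x
      rw [hg1, MonoidHom.comp_apply, hf, huo]
    · show f (g HNNExtension.t) = HNNExtension.t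
      rw [hg2, hf, hut]
  exact Function.LeftInverse.injective fun x => DFunLike.congr_fun h3 x

end hnn

end Pool.Agent.R941.FJ
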