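import Pool.Agent.R941.FJ.Tower

/-!
# Group algebras of locally finite groups are free towers
-/

set_option autoImplicit false

namespace Pool.Agent.R941.FJ

open MonoidAlgebra

section grp

variable {F Λ : Type} [Field F] [Group Λ]

/-- the group algebra of the subgroup `H` -/
def supAlg (F : Type) [Field F] {Λ : Type} [Group Λ] (H : Subgroup Λ) :
    Subalgebra F (MonoidAlgebra F Λ) where
  carrier := {a | ∀ x, x ∉ H → a.coeff x = 0}
  mul_mem' := by
    classical
    intro a b ha hb x hx
    by_contra hne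
    have h1 : x ∈ (a * b).coeff.support := Finsupp.mem_support_iff.2 hne
    have h2 := MonoidAlgebra.support_coeff_mul_subset a b h1
    obtain ⟨y, hy, z, hz, rfl⟩ := Finset.mem_mul.1 h2
    have h3 : y ∈ H := by
      by_contra h
      exact (Finsupp.mem_support_iff.1 hy) (ha y h)
    have h4 : z ∈ H := by
      by_contra h
      exact (Finsupp.mem_support_iff.1 hz) (hb z h)
    exact hx (mul_mem h3 h4)
  add_mem' := by
    intro a b ha hb x hx
    rw [coeff_add, Finsupp.add_apply, ha x hx, hb x hx, add_zero]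
  algebraMap_mem' := by
    classical
    intro r x hx
    have h1 : (1 : Λ) ≠ x := fun h => hx (h ▸ H.one_mem)
    show (algebraMap F (MonoidAlgebra F Λ) r).coeff x = 0
    rw [MonoidAlgebra.coe_algebraMap]
    show (single (1 : Λ) r).coeff x = 0
    rw [coeff_single, Finsupp.single_apply, if_neg h1]

theorem mem_supAlg {H : Subgroup Λ} {a : MonoidAlgebra F Λ} :
    a ∈ supAlg F H ↔ ∀ x, x ∉ H → a.coeff x = 0 := Iff.rfl

theorem supAlg_mono {H K : Subgroup Λ} (h : H ≤ K) : supAlg F H ≤ supAlg F K :=
  fun _ ha x hx => ha x fun hx' => hx (h hx')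

theorem single_mem {H : Subgroup Λ} {h : Λ} (hh : h ∈ H) (r : F) : single h r ∈ supAlg F H := by
  classical
  intro x hx
  have h1 : h ≠ x := fun h => hx (h ▸ hh)
  rw [coeff_single, Finsupp.single_apply, if_neg h1]

theorem supAlg_finite (H : Subgroup Λ) [Finite H] : Module.Finite F (supAlg F H) := by
  let f : supAlg F H →ₗ[F] (H → F) :=
    { toFun := fun a h => (a : MonoidAlgebra F Λ).coeff h
      map_add' := fun _ _ => rfl
      map_smul' := fun _ _ => rfl }
  refine Module.Finite.of_injective f fun a b hab => ?_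
  apply Subtype.ext
  apply MonoidAlgebra.ext
  ext x
  by_cases hx : x ∈ H
  · exact congrFun hab ⟨x, hx⟩
  · rw [a.2 x hx, b.2 x hx]

theorem supAlg_map (H : Subgroup Λ) (e : Λ ≃* Λ) :
    (supAlg F H).map ((domCongr F F e : MonoidAlgebra F Λ ≃ₐ[F] MonoidAlgebra F Λ) :
      MonoidAlgebra F Λ →ₐ[F] MonoidAlgebra F Λ) = supAlg F (H.map e.toMonoidHom) := by
  ext a
  constructor
  · rintro ⟨b, hb, rfl⟩ x hx
    show (domCongr F F e b).coeff x = 0
    rw [coeff_domCongr]
    refine hb _ fun h => hx ⟨e.symm x, h, e.apply_symm_apply x⟩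
  · intro ha
    refine ⟨domCongr F F e.symm a, ?_, ?_⟩
    · intro x hx
      show (domCongr F F e.symm a).coeff x = 0
      rw [coeff_domCongr]
      refine ha _ ?_
      rintro ⟨y, hy, hyx⟩
      have h1 : e y = e.symm.symm x := hyx
      exact hx ((e.injective h1) ▸ hy)
    · show domCongr F F e (domCongr F F e.symm a) = a
      ext x
      rw [coeff_domCongr, coeff_domCongr]
      simp

theorem supAlg_free {H K : Subgroup Λ} [Finite K] (h : H ≤ K) :
    FreeOver (supAlg F H) (supAlg F K) := by
  classical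
  have hHf : Finite H := Finite.of_injective _ (Subgroup.inclusion_injective h)
  have : Fintype H := Fintype.ofFinite H
  -- right cosets
  let s := QuotientGroup.rightRel (H.subgroupOf K)
  have hfin : Finite (Quotient s) := inferInstance
  obtain ⟨n, ⟨e⟩⟩ := Finite.exists_equiv_fin (Quotient s)
  let r : Fin n → K := fun i => (e.symm i).out
  -- every element is uniquely `h * r i`
  have hr1 : ∀ k : K, ∃ i, ∃ hh : Λ, hh ∈ H ∧ (k : Λ) = hh * r i := by
    intro k
    refine ⟨e (Quotient.mk s k), (k : Λ) * ((r (e (Quotient.mk s k)) : K) : Λ)⁻¹, ?_, by group⟩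
    have h1 : Quotient.mk s (r (e (Quotient.mk s k))) = Quotient.mk s k := by
      show Quotient.mk s ((e.symm (e (Quotient.mk s k))).out) = _
      rw [e.symm_apply_apply, Quotient.out_eq]
    have h2 : s.r (r (e (Quotient.mk s k))) k := Quotient.exact h1
    have h3 := QuotientGroup.rightRel_apply.1 h2
    exact h3
  have hr2 : ∀ i j (hh : Λ), hh ∈ H → hh * (r i : Λ) * ((r j : K) : Λ)⁻¹ ∈ H → i = j := by
    intro i j hh hH h1
    have h2 : (r i : Λ) * ((r j : K) : Λ)⁻¹ ∈ H := by
      have := mul_mem (inv_mem hH) h1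
      rwa [mul_assoc, inv_mul_cancel_left] at this
    have h3 : s.r (r j) (r i) := QuotientGroup.rightRel_apply.2 h2
    have h4 : Quotient.mk s (r j) = Quotient.mk s (r i) := Quotient.sound h3
    have h5 : ∀ i, Quotient.mk s (r i) = e.symm i := fun i => Quotient.out_eq _
    rw [h5, h5] at h4
    exact (e.symm.injective h4).symm
  -- the coefficients of a combination
  have hcoef : ∀ (c : Fin n → supAlg F H) (i : Fin n) (hh : Λ), hh ∈ H →
      (∑ j, (c j : MonoidAlgebra F Λ) * single (r j : Λ) (1 : F)).coeff (hh * r i) =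
        (c i : MonoidAlgebra F Λ).coeff hh := by
    intro c i hh hH
    rw [coeff_sum, Finsupp.finset_sum_apply, Finset.sum_eq_single i]
    · rw [coeff_mul_single_apply, mul_inv_cancel_right, mul_one]
    · intro j _ hji
      rw [coeff_mul_single_apply, mul_one]
      refine (c j).2 _ fun h1 => hji ?_
      exact (hr2 i j hh hH h1).symm
    · intro h1
      exact (h1 (Finset.mem_univ i)).elim
  refine ⟨n, fun i => single (r i : Λ) 1, fun i => single_mem (r i).2 1, fun x hx => ?_⟩
  let c : Fin n → supAlg F H := fun i =>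
    ⟨∑ h : H, single (h : Λ) (x.coeff ((h : Λ) * r i)), sum_mem fun h _ => single_mem h.2 _⟩
  have hc : ∀ i (hh : Λ), hh ∈ H → (c i : MonoidAlgebra F Λ).coeff hh = x.coeff (hh * r i) := by
    intro i hh hH
    show (∑ h : H, single (h : Λ) (x.coeff ((h : Λ) * r i))).coeff hh = _
    rw [coeff_sum, Finsupp.finset_sum_apply, Finset.sum_eq_single ⟨hh, hH⟩]
    · rw [coeff_single, Finsupp.single_eq_same]
    · intro h _ hne
      rw [coeff_single, Finsupp.single_apply, if_neg]
      intro h1
      exact hne (Subtype.ext h1)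
    · intro h1
      exact (h1 (Finset.mem_univ _)).elim
  have hmemK : ∀ c : Fin n → supAlg F H,
      (∑ j, (c j : MonoidAlgebra F Λ) * single (r j : Λ) (1 : F)) ∈ supAlg F K := fun c =>
    sum_mem fun j _ => mul_mem (supAlg_mono h (c j).2) (single_mem (r j).2 1)
  refine ⟨c, ?_, ?_⟩
  · apply MonoidAlgebra.ext
    ext y
    by_cases hy : y ∈ K
    · obtain ⟨i, hh, hH, h1⟩ := hr1 ⟨y, hy⟩
      have h2 : y = hh * r i := h1
      rw [h2, hcoef c i hh hH, hc i hh hH]
    · rw [hx y hy, hmemK c y hy]
  · intro c' hc'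
    funext i
    apply Subtype.ext
    apply MonoidAlgebra.ext
    ext y
    by_cases hy : y ∈ H
    · rw [hc i y hy, hc', hcoef c' i y hy]
    · rw [(c' i).2 y hy, (c i).2 y hy]

/-- **the group algebra of a locally finite group is a free tower** -/
theorem grp_tower (hlf : ∀ E : Set Λ, E.Finite → Finite (Subgroup.closure E)) :
    Tower {S : Subalgebra F (MonoidAlgebra F Λ) | ∃ H : Subgroup Λ, Finite H ∧ S = supAlg F H} where
  dir := by
    rintro _ ⟨H, hH, rfl⟩ _ ⟨K, hK, rfl⟩
    have hf : ((H : Set Λ) ∪ K).Finite := (Set.toFinite _).union (Set.toFinite _)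
    refine ⟨supAlg F (Subgroup.closure ((H : Set Λ) ∪ K)), ⟨_, hlf _ hf, rfl⟩,
      supAlg_mono fun x hx => Subgroup.subset_closure (Or.inl hx),
      supAlg_mono fun x hx => Subgroup.subset_closure (Or.inr hx)⟩
  cover := by
    intro a
    refine ⟨supAlg F (Subgroup.closure (a.coeff.support : Set Λ)),
      ⟨_, hlf _ a.coeff.support.finite_toSet, rfl⟩, fun x hx => ?_⟩
    by_contra hne
    exact hx (Subgroup.subset_closure (Finsupp.mem_support_iff.2 hne))
  fin := by
    rintro _ ⟨H, hH, rfl⟩
    exact supAlg_finite H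
  free := by
    rintro _ ⟨H, hH, rfl⟩ _ ⟨K, hK, rfl⟩ hle
    refine supAlg_free fun x hx => ?_
    by_contra hne
    have h1 := hle (single_mem hx (1 : F)) x hne
    rw [coeff_single, Finsupp.single_eq_same] at h1
    exact one_ne_zero h1

end grp

end Pool.Agent.R941.FJ
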