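import Pool.Agent.R941.FJ.Lfk

/-!
# Ascending series with admissible factors
-/

set_option autoImplicit false

namespace Pool.Agent.R941.FJ

open Pool.Agent.Y110.FJ
open Pool.Agent.Y462.SS (Closed)

variable {C : ∀ (G : Type) [Group G], Prop}

theorem C_equiv (hC : Closed C) {G H : Type} [Group G] [Group H] (e : G ≃* H) (h : C H) : C G :=
  hC.of_injective _ _ e.toMonoidHom e.injective h

theorem C_le (hC : Closed C) {G : Type} [Group G] {H K : Subgroup G} (h : H ≤ K) (hK : C K) : C H :=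
  hC.of_injective _ _ (Subgroup.inclusion h) (Subgroup.inclusion_injective h) hK

/-- the factor `(M' ⟨g⟩) / M` as a subgroup of the quotient -/
theorem quot (hC : Closed C) {G : Type} [Group G] {M : Subgroup G} [M.Normal] (H : Subgroup G)
    (h : C (H.map (QuotientGroup.mk' M))) : C (H ⧸ M.subgroupOf H) := by
  let f : H →* H.map (QuotientGroup.mk' M) :=
    ((QuotientGroup.mk' M).comp H.subtype).codRestrict _ fun x => ⟨x, x.2, rfl⟩
  have hf : ∀ x, f x = 1 ↔ x ∈ M.subgroupOf H := by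
    intro x
    rw [Subgroup.mem_subgroupOf, ← QuotientGroup.eq_one_iff]
    exact ⟨fun h => congrArg Subtype.val h, fun h => Subtype.ext h⟩
  refine hC.of_injective _ _ (QuotientGroup.lift (M.subgroupOf H) f fun x hx => (hf x).2 hx) ?_ h
  rw [injective_iff_map_eq_one]
  intro a ha
  obtain ⟨x, rfl⟩ := QuotientGroup.mk_surjective a
  exact (QuotientGroup.eq_one_iff _).2 ((hf x).1 ha)

/-- the successor step -/
theorem step (hC : ClosedE C) {G : Type} [Group G] {M M' : Subgroup G} [M.Normal]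
    (h1 : ∀ g : G, C ↥(M ⊔ Subgroup.zpowers g)) (hle : M ≤ M')
    (h2 : ∀ g : G, C ↥((M' ⊔ Subgroup.zpowers g).map (QuotientGroup.mk' M))) (g : G) :
    C ↥(M' ⊔ Subgroup.zpowers g) := by
  obtain ⟨H, hH⟩ : ∃ H : Subgroup G, H = M' ⊔ Subgroup.zpowers g := ⟨_, rfl⟩
  have hMH : M ≤ H := by rw [hH]; exact hle.trans le_sup_left
  rw [← hH]
  refine Pool.Agent.Y529.FJ.t_ext C hC H (M.subgroupOf H) ?_ ?_ fun x _ => ?_
  · refine hC.base.of_injective _ ↥(M ⊔ Subgroup.zpowers (1 : G))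
      ((Subgroup.inclusion (le_sup_left : M ≤ M ⊔ Subgroup.zpowers (1 : G))).comp
        (Subgroup.subgroupOfEquivOfLe hMH).toMonoidHom) ?_ (h1 1)
    exact (Subgroup.inclusion_injective
      (le_sup_left : M ≤ M ⊔ Subgroup.zpowers (1 : G))).comp (Subgroup.subgroupOfEquivOfLe hMH).injective
  · refine quot hC.base H ?_
    rw [hH]
    exact h2 g
  · -- embed in `M ⟨x⟩`
    have h3 : M.subgroupOf H ⊔ Subgroup.zpowers x ≤ (M ⊔ Subgroup.zpowers (x : G)).comap H.subtype := by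
      refine sup_le ?_ ?_
      · intro y hy
        exact Subgroup.mem_sup_left hy
      · rw [Subgroup.zpowers_le]
        exact Subgroup.mem_sup_right (Subgroup.mem_zpowers _)
    refine hC.base.of_injective _ ↥(M ⊔ Subgroup.zpowers (x : G))
      ((H.subtype.comp (M.subgroupOf H ⊔ Subgroup.zpowers x).subtype).codRestrict _
        fun y => h3 y.2) ?_ (h1 _)
    intro a b hab
    exact Subtype.ext (Subtype.ext (congrArg (fun z : ↥(M ⊔ Subgroup.zpowers (x : G)) => (z : G)) hab))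

theorem mem_sup_normal {G : Type} [Group G] {M K : Subgroup G} [M.Normal] {x : G} :
    x ∈ M ⊔ K ↔ ∃ a ∈ M, ∃ b ∈ K, a * b = x := by
  rw [← SetLike.mem_coe, Subgroup.normal_mul, Set.mem_mul]
  rfl

/-- cyclic groups are in the class -/
theorem C_cyc (hC : Closed C) {G : Type} [Group G] (g : G) : C (Subgroup.zpowers g) := by
  by_cases h : IsOfFinOrder g
  · have : Finite (Subgroup.zpowers g) := (finite_zpowers.2 h).to_subtype
    exact Pool.Agent.Y430.SS.of_finite hC _ this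
  · have h1 : Function.Injective (zpowersHom G g) := by
      intro a b hab
      exact (injective_zpow_iff_not_isOfFinOrder.2 h) hab
    have h2 : (zpowersHom G g).range = Subgroup.zpowers g := rfl
    rw [← h2]
    exact C_equiv hC (MonoidHom.ofInjective h1).symm hC.int

/-- **ascending series** -/
theorem hyper (hC : ClosedE C) {G : Type} [Group G] (N : Subgroup G) [N.Normal]
    (hQ : C (G ⧸ N))
    (h : ∀ M : Subgroup G, ∀ _ : M.Normal, M < N → ∃ M' : Subgroup G, M'.Normal ∧ M < M' ∧ M' ≤ N ∧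
      ∀ g : G, C ↥((M' ⊔ Subgroup.zpowers g).map (QuotientGroup.mk' M))) : C G := by
  obtain ⟨S, hS⟩ : ∃ S : Set (Subgroup G), S = {M | M.Normal ∧ M ≤ N ∧
    ∀ g : G, C ↥(M ⊔ Subgroup.zpowers g)} := ⟨_, rfl⟩
  have hbot : (⊥ : Subgroup G) ∈ S := by
    rw [hS]
    refine ⟨inferInstance, bot_le, fun g => ?_⟩
    rw [bot_sup_eq]
    exact C_cyc hC.base g
  obtain ⟨M, -, hM⟩ := zorn_le_nonempty₀ S (fun c hc hch y hy => by
    have hne : Nonempty c := ⟨⟨y, hy⟩⟩
    have hdir : DirectedOn (· ≤ ·) c := hch.directedOn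
    have hnor : (sSup c).Normal := by
      refine ⟨fun n hn g => ?_⟩
      rw [Subgroup.mem_sSup_of_directedOn ⟨y, hy⟩ hdir] at hn ⊢
      obtain ⟨K, hK, hnK⟩ := hn
      have h1 := hc hK
      rw [hS] at h1
      exact ⟨K, hK, h1.1.conj_mem n hnK g⟩
    refine ⟨sSup c, ?_, fun z hz => le_sSup hz⟩
    rw [hS]
    refine ⟨hnor, sSup_le fun K hK => ?_, fun g => ?_⟩
    · have h1 := hc hK
      rw [hS] at h1
      exact h1.2.1
    · refine Pool.Agent.Y430.SS.of_directed hC.base _ c (fun i j => ?_)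
        (fun K => (K.1 ⊔ Subgroup.zpowers g).subgroupOf (sSup c ⊔ Subgroup.zpowers g)) ?_ ?_ ?_
      · obtain ⟨k, hk, h1, h2⟩ := hdir i.1 i.2 j.1 j.2
        exact ⟨⟨k, hk⟩, h1, h2⟩
      · intro i j hij
        exact Subgroup.comap_mono (sup_le_sup_right hij _)
      · rintro ⟨x, hx⟩
        obtain ⟨a, ha, b, hb, hab⟩ := mem_sup_normal.1 hx
        rw [Subgroup.mem_sSup_of_directedOn ⟨y, hy⟩ hdir] at ha
        obtain ⟨K, hK, haK⟩ := ha
        refine ⟨⟨K, hK⟩, ?_⟩
        rw [Subgroup.mem_subgroupOf]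
        show x ∈ K ⊔ Subgroup.zpowers g
        rw [← hab]
        exact mul_mem (Subgroup.mem_sup_left haK) (Subgroup.mem_sup_right hb)
      · intro i
        have h1 := hc i.2
        rw [hS] at h1
        exact C_equiv hC.base
          (Subgroup.subgroupOfEquivOfLe (sup_le_sup_right (le_sSup i.2) _)) (h1.2.2 g)) ⊥ hbot
  have hMS : M ∈ S := hM.prop
  rw [hS] at hMS
  obtain ⟨hMn, hMN, hMC⟩ := hMS
  have heq : M = N := by
    by_contra hne
    obtain ⟨M', hn', hlt, hle', hC'⟩ := h M hMn (lt_of_le_of_ne hMN hne)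
    have h1 : M' ∈ S := by
      rw [hS]
      exact ⟨hn', hle', fun g => step hC hMC hlt.le hC' g⟩
    exact absurd (hM.le_of_ge h1 hlt.le) (not_le_of_gt hlt)
  subst heq
  refine Pool.Agent.Y529.FJ.t_ext C hC G M ?_ hQ fun g _ => hMC g
  exact C_le hC.base le_sup_left (hMC 1)

/-- locally finite factors -/
theorem factor_lf (hC : ClosedE C) {G : Type} [Group G] (M M' : Subgroup G) [M.Normal] [M'.Normal]
    (h : ∀ E : Set G, E.Finite → E ⊆ M' → M.relIndex (Subgroup.closure E) ≠ 0) (g : G) :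
    C ↥((M' ⊔ Subgroup.zpowers g).map (QuotientGroup.mk' M)) := by
  obtain ⟨H, hH⟩ : ∃ H : Subgroup (G ⧸ M), H = (M' ⊔ Subgroup.zpowers g).map (QuotientGroup.mk' M) :=
    ⟨_, rfl⟩
  obtain ⟨L, hL⟩ : ∃ L : Subgroup (G ⧸ M), L = M'.map (QuotientGroup.mk' M) := ⟨_, rfl⟩
  have hLn : L.Normal := by
    rw [hL]
    exact Subgroup.Normal.map inferInstance _ (QuotientGroup.mk'_surjective M)
  have hH' : H = L ⊔ Subgroup.zpowers (QuotientGroup.mk' M g) := by
    rw [hH, hL, Subgroup.map_sup, MonoidHom.map_zpowers]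
  rw [← hH]
  have hLH : L ≤ H := by rw [hH']; exact le_sup_left
  refine lfk hC (L.subgroupOf H) ?_ ?_
  · intro E hE hEL
    -- lift the finite set to `M'`
    have h1 : ∀ x : H, ∃ y : G, x ∈ L.subgroupOf H → y ∈ M' ∧ QuotientGroup.mk' M y = x := by
      intro x
      by_cases hx : x ∈ L.subgroupOf H
      · rw [Subgroup.mem_subgroupOf, hL] at hx
        obtain ⟨y, hy, hyx⟩ := hx
        exact ⟨y, fun _ => ⟨hy, hyx⟩⟩
      · exact ⟨1, fun h => absurd h hx⟩
    choose σ hσ using h1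
    have h2 := h (σ '' E) (hE.image σ) (by
      rintro _ ⟨x, hx, rfl⟩
      exact (hσ x (hEL hx)).1)
    have h3 : ((Subgroup.closure (σ '' E)).map (QuotientGroup.mk' M)) =
        (Subgroup.closure E).map H.subtype := by
      rw [MonoidHom.map_closure, MonoidHom.map_closure, Set.image_image]
      congr 1
      refine Set.image_congr fun x hx => ?_
      exact (hσ x (hEL hx)).2
    have h4 : Finite ↥((Subgroup.closure (σ '' E)).map (QuotientGroup.mk' M)) := by
      have h5 : Nat.card ↥((Subgroup.closure (σ '' E)).map (QuotientGroup.mk' M)) ≠ 0 := by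
        rw [← Subgroup.relIndex_bot_left, ← Subgroup.relIndex_comap, MonoidHom.comap_bot,
          QuotientGroup.ker_mk']
        exact h2
      exact Nat.finite_of_card_ne_zero h5
    rw [h3] at h4
    exact Finite.of_injective ((Subgroup.closure E).equivMapOfInjective H.subtype
      H.subtype_injective) (MulEquiv.injective _)
  · -- the quotient is cyclic
    have h1 : ∃ q : H ⧸ L.subgroupOf H, ∀ x : H ⧸ L.subgroupOf H, x ∈ Subgroup.zpowers q := by
      refine ⟨QuotientGroup.mk ⟨QuotientGroup.mk' M g, ?_⟩, ?_⟩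
      · rw [hH']
        exact Subgroup.mem_sup_right (Subgroup.mem_zpowers _)
      · intro x
        obtain ⟨⟨y, hy⟩, rfl⟩ := QuotientGroup.mk_surjective x
        have hy' := hy
        rw [hH'] at hy'
        obtain ⟨a, ha, b, hb, hab⟩ := mem_sup_normal.1 hy'
        obtain ⟨k, rfl⟩ := Subgroup.mem_zpowers_iff.1 hb
        rw [Subgroup.mem_zpowers_iff]
        refine ⟨k, ?_⟩
        rw [← QuotientGroup.mk_zpow, eq_comm, ← mul_inv_eq_one, ← QuotientGroup.mk_inv,
          ← QuotientGroup.mk_mul, QuotientGroup.eq_one_iff, Subgroup.mem_subgroupOf]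
        show y * ((QuotientGroup.mk' M g) ^ k)⁻¹ ∈ L
        rw [← hab, mul_inv_cancel_right]
        exact ha
    obtain ⟨q, hq⟩ := h1
    have h2 : Subgroup.zpowers q = ⊤ := (Subgroup.eq_top_iff' _).2 hq
    refine C_equiv hC.base Subgroup.topEquiv.symm ?_
    rw [← h2]
    exact C_cyc hC.base q

/-- abelian factors -/
theorem factor_ab (hC : ClosedE C)
    (hmet : ∀ (S : Type) [Group S], (∀ a ∈ commutator S, ∀ b ∈ commutator S, a * b = b * a) → C S)
    {G : Type} [Group G] (M M' : Subgroup G) [M.Normal] [M'.Normal]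
    (h : ∀ a ∈ M', ∀ b ∈ M', a * b * a⁻¹ * b⁻¹ ∈ M) (g : G) :
    C ↥((M' ⊔ Subgroup.zpowers g).map (QuotientGroup.mk' M)) := by
  obtain ⟨H, hH⟩ : ∃ H : Subgroup (G ⧸ M), H = (M' ⊔ Subgroup.zpowers g).map (QuotientGroup.mk' M) :=
    ⟨_, rfl⟩
  obtain ⟨L, hL⟩ : ∃ L : Subgroup (G ⧸ M), L = M'.map (QuotientGroup.mk' M) := ⟨_, rfl⟩
  have hLn : L.Normal := by
    rw [hL]
    exact Subgroup.Normal.map inferInstance _ (QuotientGroup.mk'_surjective M)
  have hH' : H = L ⊔ Subgroup.zpowers (QuotientGroup.mk' M g) := by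
    rw [hH, hL, Subgroup.map_sup, MonoidHom.map_zpowers]
  have hab : ∀ a ∈ L, ∀ b ∈ L, a * b = b * a := by
    rw [hL]
    rintro _ ⟨a, ha, rfl⟩ _ ⟨b, hb, rfl⟩
    rw [← map_mul, ← map_mul, ← mul_inv_eq_one, ← map_inv, ← map_mul]
    refine (QuotientGroup.eq_one_iff _).2 ?_
    have := h a ha b hb
    rwa [mul_inv_rev, ← mul_assoc]
  have hcomm : commutator H ≤ L.subgroupOf H := by
    rw [commutator_def, Subgroup.commutator_le]
    intro x _ y _
    rw [Subgroup.mem_subgroupOf]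
    show (x : G ⧸ M) * (y : G ⧸ M) * (x : G ⧸ M)⁻¹ * (y : G ⧸ M)⁻¹ ∈ L
    have hx : (x : G ⧸ M) ∈ L ⊔ Subgroup.zpowers (QuotientGroup.mk' M g) := hH' ▸ x.2
    have hy : (y : G ⧸ M) ∈ L ⊔ Subgroup.zpowers (QuotientGroup.mk' M g) := hH' ▸ y.2
    obtain ⟨a, ha, b, hb, hab1⟩ := mem_sup_normal.1 hx
    obtain ⟨c, hc, d, hd, hcd⟩ := mem_sup_normal.1 hy
    rw [← QuotientGroup.eq_one_iff (N := L)]
    obtain ⟨k, rfl⟩ := Subgroup.mem_zpowers_iff.1 hb
    obtain ⟨l, rfl⟩ := Subgroup.mem_zpowers_iff.1 hd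
    rw [← hab1, ← hcd]
    have ha1 : ((a : G ⧸ M) : (G ⧸ M) ⧸ L) = 1 := (QuotientGroup.eq_one_iff _).2 ha
    have hc1 : ((c : G ⧸ M) : (G ⧸ M) ⧸ L) = 1 := (QuotientGroup.eq_one_iff _).2 hc
    simp only [QuotientGroup.mk_mul, QuotientGroup.mk_inv, QuotientGroup.mk_zpow, ha1, hc1, one_mul]
    group
  rw [← hH]
  refine hmet H fun a ha b hb => ?_
  have h1 := hcomm ha
  have h2 := hcomm hb
  exact Subtype.ext (hab _ h1 _ h2)

end Pool.Agent.R941.FJ
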