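import Pool.Agent.R779.FJ.Col

/-!
# Extensions with locally finite kernel
-/

set_option autoImplicit false

namespace Pool.Agent.R941.FJ

open Pool.Agent.Y110.FJ
open Pool.Agent.Y462.SS (Closed)

/-- an isomorphism between subgroups of a finite group is induced by an inner automorphism of the
group of all permutations -/
theorem realize {K : Type} [Group K] [Finite K] (A B : Subgroup K) (φ : A ≃* B) :
    ∃ (f : K →* Equiv.Perm K) (p : Equiv.Perm K), Function.Injective f ∧
      ∀ a : A, f (φ a : K) = p * f a * p⁻¹ := by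
  classical
  -- right multiplication
  let f : K →* Equiv.Perm K :=
    { toFun := fun k => Equiv.mulRight k⁻¹
      map_one' := by ext x; simp
      map_mul' := fun k l => by ext x; simp [mul_assoc] }
  have hf : ∀ k x, f k x = x * k⁻¹ := fun k x => rfl
  have hcard : Nat.card (K ⧸ A) = Nat.card (K ⧸ B) := by
    have h1 := Subgroup.card_eq_card_quotient_mul_card_subgroup A
    have h2 := Subgroup.card_eq_card_quotient_mul_card_subgroup B
    have h3 : Nat.card A = Nat.card B := Nat.card_congr φ.toEquiv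
    have h4 : 0 < Nat.card B := Nat.card_pos
    rw [h3] at h1
    exact Nat.eq_of_mul_eq_mul_right h4 (h1.symm.trans h2)
  let e : K ⧸ A ≃ K ⧸ B := (Finite.equivFinOfCardEq hcard).trans (Finite.equivFin _).symm
  have hout : ∀ x : K, ((QuotientGroup.mk x : K ⧸ A).out)⁻¹ * x ∈ A := by
    intro x
    have h1 : (QuotientGroup.mk ((QuotientGroup.mk x : K ⧸ A).out) : K ⧸ A) = QuotientGroup.mk x :=
      Quotient.out_eq _
    exact QuotientGroup.eq.1 h1
  let r : K → A := fun x => ⟨((QuotientGroup.mk x : K ⧸ A).out)⁻¹ * x, hout x⟩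
  have hr : ∀ x, x = (QuotientGroup.mk x : K ⧸ A).out * (r x : K) := fun x => by
    show x = _ * (_⁻¹ * x)
    group
  let p0 : K → K := fun x => (e (QuotientGroup.mk x)).out * (φ (r x) : K)
  have hp1 : ∀ x, (QuotientGroup.mk (p0 x) : K ⧸ B) = e (QuotientGroup.mk x) := by
    intro x
    have h1 : (QuotientGroup.mk (p0 x) : K ⧸ B) =
        QuotientGroup.mk ((e (QuotientGroup.mk x)).out) := by
      rw [QuotientGroup.eq]
      show ((e (QuotientGroup.mk x)).out * (φ (r x) : K))⁻¹ * (e (QuotientGroup.mk x)).out ∈ B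
      rw [mul_inv_rev, mul_assoc, inv_mul_cancel, mul_one]
      exact inv_mem (φ (r x)).2
    rw [h1]
    exact Quotient.out_eq _
  have hinj : Function.Injective p0 := by
    intro x y hxy
    have h1 : (QuotientGroup.mk x : K ⧸ A) = QuotientGroup.mk y :=
      e.injective (by rw [← hp1 x, ← hp1 y, hxy])
    have h2 : (φ (r x) : K) = φ (r y) := by
      have h3 : p0 x = p0 y := hxy
      simp only [p0, h1] at h3
      exact mul_left_cancel h3
    have h4 : r x = r y := φ.injective (Subtype.ext h2)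
    rw [hr x, hr y, h1, h4]
  let p : Equiv.Perm K := Equiv.ofBijective p0 (Finite.injective_iff_bijective.1 hinj)
  have hp : ∀ x, p x = p0 x := fun x => rfl
  refine ⟨f, p, ?_, fun a => ?_⟩
  · intro k l hkl
    have h1 : f k 1 = f l 1 := by rw [hkl]
    simpa [hf] using h1
  · rw [eq_mul_inv_iff_mul_eq]
    ext x
    show f (φ a : K) (p x) = p (f a x)
    rw [hf, hf, hp, hp]
    have h1 : (QuotientGroup.mk (x * (a : K)⁻¹) : K ⧸ A) = QuotientGroup.mk x := by
      rw [QuotientGroup.eq]
      simp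
    have h2 : r (x * (a : K)⁻¹) = r x * a⁻¹ := by
      apply Subtype.ext
      show ((QuotientGroup.mk (x * (a : K)⁻¹) : K ⧸ A).out)⁻¹ * (x * (a : K)⁻¹) =
        ((QuotientGroup.mk x : K ⧸ A).out)⁻¹ * x * (a : K)⁻¹
      rw [h1, mul_assoc]
    show (e (QuotientGroup.mk x)).out * (φ (r x) : K) * (φ a : K)⁻¹ =
      (e (QuotientGroup.mk (x * (a : K)⁻¹))).out * (φ (r (x * (a : K)⁻¹)) : K)
    rw [h1, h2, map_mul, map_inv]
    push_cast
    rw [mul_assoc]

/-- **extensions with locally finite kernel** -/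
theorem lfk {C : ∀ (G : Type) [Group G], Prop} (hC : ClosedE C) {G : Type} [Group G]
    (N : Subgroup G) [hN : N.Normal]
    (hlf : ∀ E : Set G, E.Finite → E ⊆ N → Finite (Subgroup.closure E))
    (hQ : C (G ⧸ N)) : C G := by
  refine Pool.Agent.R779.FJ.t_crit Pool.Agent.Y529.FJ.t_ext
    (Pool.Agent.Y961.FJ.t_perm Pool.Agent.Y529.FJ.t_ext) C hC G N hQ fun g E hE hEN => ?_
  have himg : (fun x => g * x * g⁻¹) '' E ⊆ N := by
    rintro _ ⟨x, hx, rfl⟩
    exact hN.conj_mem x (hEN hx) g
  have hfin : Finite ↥(Subgroup.closure (E ∪ (fun x => g * x * g⁻¹) '' E)) :=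
    hlf _ (hE.union (hE.image _)) (Set.union_subset hEN himg)
  obtain ⟨K, hK⟩ : ∃ K : Subgroup G, K = Subgroup.closure (E ∪ (fun x => g * x * g⁻¹) '' E) :=
    ⟨_, rfl⟩
  have hcl : (Subgroup.closure E).map (MulAut.conj g).toMonoidHom =
      Subgroup.closure ((fun x => g * x * g⁻¹) '' E) := by
    rw [MonoidHom.map_closure]
    rfl
  have hA : Subgroup.closure E ≤ K := by
    rw [hK]
    exact Subgroup.closure_mono Set.subset_union_left
  have hB : (Subgroup.closure E).map (MulAut.conj g).toMonoidHom ≤ K := by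
    rw [hcl, hK]
    exact Subgroup.closure_mono Set.subset_union_right
  let φ : ((Subgroup.closure E).subgroupOf K) ≃*
      (((Subgroup.closure E).map (MulAut.conj g).toMonoidHom).subgroupOf K) :=
    (Subgroup.subgroupOfEquivOfLe hA).trans
      (((Subgroup.closure E).equivMapOfInjective (MulAut.conj g).toMonoidHom
        (MulAut.conj g).injective).trans (Subgroup.subgroupOfEquivOfLe hB).symm)
  have hφ : ∀ a, (((φ a : K)) : G) = g * ((a : K) : G) * g⁻¹ := fun a => rfl
  rw [← hK] at hfin
  obtain ⟨f, p, hf, hp⟩ := realize _ _ φ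
  unfold Realized
  rw [← hK]
  refine ⟨Equiv.Perm K, inferInstance, f, p,
    Pool.Agent.Y430.SS.of_finite hC.base _ inferInstance, hf, ?_⟩
  intro x y hx hy
  have h1 := hp ⟨x, Subgroup.subset_closure hx⟩
  have h2 : ((φ ⟨x, Subgroup.subset_closure hx⟩ : K)) = y := by
    apply Subtype.ext
    rw [hφ, hy]
  rw [h2] at h1
  exact h1

end Pool.Agent.R941.FJ
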