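import Pool.Agent.R941.FJ.Hyper
import Pool.Agent.R941.FJ.Rdp

/-!
# Ascending series with factors which are restricted direct products
-/

set_option autoImplicit false

namespace Pool.Agent.R941.FJ

open Pool.Agent.Y110.FJ
open Pool.Agent.Y462.SS (Closed)

/-- restriction to a subgroup that contains the restricted direct product -/
theorem IsRdp.subgroupOf {G I : Type} [Group G] [MulAction G I] {N : Subgroup G}
    {K : I → Subgroup G} (h : IsRdp N K) (H : Subgroup G) (hH : N ≤ H) :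
    IsRdp (N.subgroupOf H) (fun i => (K i).subgroupOf H) := by
  have hK : ∀ i, K i ≤ H := fun i => (le_N h i).trans hH
  have hmap : ∀ (J : Type) (L : J → Subgroup G), (∀ j, L j ≤ H) →
      (⨆ j, (L j).subgroupOf H) = (⨆ j, L j).subgroupOf H := by
    intro J L hL
    apply Subgroup.map_injective H.subtype_injective
    rw [Subgroup.map_iSup, Subgroup.map_subgroupOf_eq_of_le (iSup_le hL)]
    exact iSup_congr fun j => Subgroup.map_subgroupOf_eq_of_le (hL j)
  refine ⟨?_, ?_, ?_, ?_⟩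
  · rw [hmap I K hK, h.sup]
  · intro i j hij x hx y hy
    exact Subtype.ext (h.comm i j hij x hx y hy)
  · intro i
    have h1 : (⨆ j, ⨆ _ : j ≠ i, (K j).subgroupOf H) ≤ (⨆ j, ⨆ _ : j ≠ i, K j).subgroupOf H := by
      refine iSup₂_le fun j hj => Subgroup.comap_mono ?_
      exact le_iSup₂_of_le j hj le_rfl
    rw [eq_bot_iff]
    intro x hx
    have h2 : (x : G) ∈ K i ⊓ (⨆ j, ⨆ _ : j ≠ i, K j) := ⟨hx.1, h1 hx.2⟩
    rw [h.indep i, Subgroup.mem_bot] at h2
    exact Subtype.ext h2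
  · intro g i x hx
    exact h.conj g i x hx

/-- restricted direct products as factors -/
theorem factor_rdp {C : ∀ (G : Type) [Group G], Prop} (hC : ClosedE C) {G : Type} [Group G]
    (M M' : Subgroup G) [M.Normal] [M'.Normal] (I : Type) [MulAction (G ⧸ M) I]
    (K : I → Subgroup (G ⧸ M)) (hK : IsRdp (M'.map (QuotientGroup.mk' M)) K)
    (hC' : ∀ (i : I) (g : G ⧸ M), g • i = i → C ↥(K i ⊔ Subgroup.zpowers g)) (g : G) :
    C ↥((M' ⊔ Subgroup.zpowers g).map (QuotientGroup.mk' M)) := by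
  obtain ⟨H, hH⟩ : ∃ H : Subgroup (G ⧸ M), H = (M' ⊔ Subgroup.zpowers g).map (QuotientGroup.mk' M) :=
    ⟨_, rfl⟩
  obtain ⟨L, hL⟩ : ∃ L : Subgroup (G ⧸ M), L = M'.map (QuotientGroup.mk' M) := ⟨_, rfl⟩
  rw [← hL] at hK
  have hLn : L.Normal := by
    rw [hL]
    exact Subgroup.Normal.map inferInstance _ (QuotientGroup.mk'_surjective M)
  have hH' : H = L ⊔ Subgroup.zpowers (QuotientGroup.mk' M g) := by
    rw [hH, hL, Subgroup.map_sup, MonoidHom.map_zpowers]
  rw [← hH]
  have hLH : L ≤ H := by rw [hH']; exact le_sup_left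
  refine rdp hC (hK.subgroupOf H hLH) ?_ ?_
  · intro i x hx
    have h1 : C ↥(K i ⊔ Subgroup.zpowers (x : G ⧸ M)) := hC' i x hx
    have h2 : (K i).subgroupOf H ⊔ Subgroup.zpowers x ≤
        (K i ⊔ Subgroup.zpowers (x : G ⧸ M)).comap H.subtype := by
      refine sup_le (Subgroup.comap_mono le_sup_left) ?_
      rw [Subgroup.zpowers_le]
      exact Subgroup.mem_sup_right (Subgroup.mem_zpowers _)
    refine hC.base.of_injective _ ↥(K i ⊔ Subgroup.zpowers (x : G ⧸ M))
      ((H.subtype.comp ((K i).subgroupOf H ⊔ Subgroup.zpowers x).subtype).codRestrict _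
        fun y => h2 y.2) ?_ h1
    intro a b hab
    exact Subtype.ext (Subtype.ext
      (congrArg (fun z : ↥(K i ⊔ Subgroup.zpowers (x : G ⧸ M)) => (z : G ⧸ M)) hab))
  · have h1 : ∃ q : H ⧸ L.subgroupOf H, ∀ x : H ⧸ L.subgroupOf H, x ∈ Subgroup.zpowers q := by
      refine ⟨QuotientGroup.mk ⟨QuotientGroup.mk' M g, ?_⟩, ?_⟩
      · rw [hH']
        exact Subgroup.mem_sup_right (Subgroup.mem_zpowers _)
      · intro x
        obtain ⟨⟨y, hy⟩, rfl⟩ := QuotientGroup.mk_surjective x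
        have hy' := hy
        rw [hH'] at hy'
        obtain ⟨a, ha, b, hb, hab⟩ := mem_sup_normal.1 hy'
        obtain ⟨k, rfl⟩ := Subgroup.mem_zpowers_iff.1 hb
        rw [Subgroup.mem_zpowers_iff]
        refine ⟨k, ?_⟩
        rw [← QuotientGroup.mk_zpow, eq_comm, ← mul_inv_eq_one, ← QuotientGroup.mk_inv,
          ← QuotientGroup.mk_mul, QuotientGroup.eq_one_iff, Subgroup.mem_subgroupOf]
        show y * ((QuotientGroup.mk' M g) ^ k)⁻¹ ∈ L
        rw [← hab, mul_inv_cancel_right]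
        exact ha
    obtain ⟨q, hq⟩ := h1
    have h2 : Subgroup.zpowers q = ⊤ := (Subgroup.eq_top_iff' _).2 hq
    refine C_equiv hC.base Subgroup.topEquiv.symm ?_
    rw [← h2]
    exact C_cyc hC.base q

end Pool.Agent.R941.FJ
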