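import Pool.Agent.R779.FJ.Col

/-!
# Unit groups of free towers of finite dimensional algebras
-/

set_option autoImplicit false

namespace Pool.Agent.R941.FJ

open Pool.Agent.Y110.FJ
open Pool.Agent.Y462.SS (Closed)

variable {C : ∀ (G : Type) [Group G], Prop}

section tower

variable {F R : Type} [Field F] [Ring R] [Algebra F R]

/-- `T` is a free left `S`-module with a finite basis -/
def FreeOver (S T : Subalgebra F R) : Prop :=
  ∃ (n : ℕ) (b : Fin n → R), (∀ i, b i ∈ T) ∧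
    ∀ x ∈ T, ∃! c : Fin n → S, x = ∑ i, (c i : R) * b i

/-- `R` is the directed union of the finite dimensional subalgebras in `𝒮`, and they are free left
modules over each other -/
structure Tower (𝒮 : Set (Subalgebra F R)) : Prop where
  dir : ∀ S ∈ 𝒮, ∀ T ∈ 𝒮, ∃ U ∈ 𝒮, S ≤ U ∧ T ≤ U
  cover : ∀ x : R, ∃ S ∈ 𝒮, x ∈ S
  fin : ∀ S ∈ 𝒮, Module.Finite F S
  free : ∀ S ∈ 𝒮, ∀ T ∈ 𝒮, S ≤ T → FreeOver S T

theorem free_equiv {S T : Subalgebra F R} (hST : S ≤ T) (h : FreeOver S T) :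
    ∃ (n : ℕ) (e : (Fin n → S) ≃ₗ[F] T), ∀ (s : S) (c : Fin n → S),
      (e (fun i => s * c i) : R) = s * (e c : R) := by
  obtain ⟨n, b, hb, hu⟩ := h
  have hmem : ∀ c : Fin n → S, ∑ i, (c i : R) * b i ∈ T := fun c =>
    sum_mem fun i _ => mul_mem (hST (c i).2) (hb i)
  let f : (Fin n → S) →ₗ[F] T :=
    { toFun := fun c => ⟨∑ i, (c i : R) * b i, hmem c⟩
      map_add' := fun c d => by
        apply Subtype.ext
        show ∑ i, (((c i + d i : S)) : R) * b i = ∑ i, (c i : R) * b i + ∑ i, (d i : R) * b i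
        rw [← Finset.sum_add_distrib]
        refine Finset.sum_congr rfl fun i _ => ?_
        push_cast
        rw [add_mul]
      map_smul' := fun a c => by
        apply Subtype.ext
        show ∑ i, (((a • c i : S)) : R) * b i = a • ∑ i, (c i : R) * b i
        rw [Finset.smul_sum]
        refine Finset.sum_congr rfl fun i _ => ?_
        push_cast
        rw [smul_mul_assoc] }
  have hbij : Function.Bijective f := by
    constructor
    · intro c d hcd
      obtain ⟨c0, -, hc0⟩ := hu _ (hmem c)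
      rw [hc0 c rfl, hc0 d (congrArg (fun z : T => (z : R)) hcd)]
    · rintro ⟨x, hx⟩
      obtain ⟨c, hc, -⟩ := hu x hx
      exact ⟨c, Subtype.ext hc.symm⟩
  refine ⟨n, LinearEquiv.ofBijective f hbij, fun s c => ?_⟩
  show ∑ i, (((s * c i : S)) : R) * b i = s * ∑ i, (c i : R) * b i
  rw [Finset.mul_sum]
  refine Finset.sum_congr rfl fun i _ => ?_
  push_cast
  rw [mul_assoc]

theorem transfer [Nontrivial R] {S S' T : Subalgebra F R} (β : R ≃ₐ[F] R)
    (hS' : S.map (β : R →ₐ[F] R) = S') (hS : S ≤ T) (hS'T : S' ≤ T) (h1 : FreeOver S T)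
    (h2 : FreeOver S' T) [Module.Finite F S] [Module.Finite F T] :
    ∃ p : T ≃ₗ[F] T, ∀ s, ∀ hs : s ∈ S, ∀ z : T,
      (p ⟨s * (z : R), mul_mem (hS hs) z.2⟩ : R) = β s * (p z : R) := by
  subst hS'
  obtain ⟨n, e, he⟩ := free_equiv hS h1
  obtain ⟨m, e', he'⟩ := free_equiv hS'T h2
  let β' : S ≃ₗ[F] (S.map (β : R →ₐ[F] R)) := (β.subalgebraMap S).toLinearEquiv
  have hβ' : ∀ s, ((β' s : S.map (β : R →ₐ[F] R)) : R) = β s := fun s => rfl
  have hnm : n = m := by
    have h3 : Module.finrank F (Fin n → S) = Module.finrank F T := e.finrank_eq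
    have h4 : Module.finrank F (Fin m → (S.map (β : R →ₐ[F] R))) = Module.finrank F T :=
      e'.finrank_eq
    have h5 : Module.Finite F (S.map (β : R →ₐ[F] R)) := Module.Finite.equiv β'
    rw [Module.finrank_pi_fintype] at h3 h4
    simp only [Finset.sum_const, Finset.card_univ, Fintype.card_fin, smul_eq_mul] at h3 h4
    rw [← β'.finrank_eq] at h4
    have h6 : 0 < Module.finrank F S := by
      haveI : Nontrivial S := ⟨⟨0, 1, fun h => zero_ne_one (congrArg (fun z : S => (z : R)) h)⟩⟩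
      exact Module.finrank_pos
    exact Nat.eq_of_mul_eq_mul_right h6 (h3.trans h4.symm)
  subst hnm
  refine ⟨e.symm.trans ((LinearEquiv.piCongrRight fun _ : Fin n => β').trans e'), ?_⟩
  intro s hs z
  obtain ⟨c, rfl⟩ := e.surjective z
  have h3 : (⟨s * ((e c : T) : R), mul_mem (hS hs) (e c).2⟩ : T) =
      e (fun i => (⟨s, hs⟩ : S) * c i) := Subtype.ext (he ⟨s, hs⟩ c).symm
  rw [h3]
  show (e' (fun i => β' (e.symm (e fun i => (⟨s, hs⟩ : S) * c i) i)) : R) =
    β s * (e' (fun i => β' (e.symm (e c) i)) : R)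
  rw [e.symm_apply_apply, e.symm_apply_apply]
  have h4 : (fun i => β' ((⟨s, hs⟩ : S) * c i)) = fun i => β' ⟨s, hs⟩ * β' (c i) := by
    funext i
    exact map_mul (β.subalgebraMap S) _ _
  rw [h4, he']
  rfl

/-- the units of `R` in `T`, as linear automorphisms of `T` -/
def unitHom (T : Subalgebra F R) : T.toSubmonoid.units →* (Module.End F T)ˣ :=
  (Units.map (Algebra.lmul F T : T →* Module.End F T)).comp
    { toFun := fun u => ⟨⟨(u : Rˣ), (Submonoid.mem_units_iff _ _ |>.1 u.2).1⟩,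
        ⟨((u : Rˣ)⁻¹ : Rˣ), (Submonoid.mem_units_iff _ _ |>.1 u.2).2⟩,
        Subtype.ext (Units.mul_inv _), Subtype.ext (Units.inv_mul _)⟩
      map_one' := rfl
      map_mul' := fun _ _ => rfl }

theorem unitHom_apply (T : Subalgebra F R) (u : T.toSubmonoid.units) (z : T) :
    (((unitHom T u : (Module.End F T)ˣ) : Module.End F T) z : R) = ((u : Rˣ) : R) * (z : R) := rfl

theorem unitHom_injective (T : Subalgebra F R) : Function.Injective (unitHom T) := by
  intro u v huv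
  have h1 := unitHom_apply T u 1
  rw [huv, unitHom_apply T v 1] at h1
  have h2 : ((1 : T) : R) = 1 := rfl
  rw [h2, mul_one, mul_one] at h1
  exact Subtype.ext (Units.ext h1.symm)

theorem C_end (hC : Closed C) (hGL : ∀ n : ℕ, C (GL (Fin n) F)) (V : Type) [AddCommGroup V]
    [Module F V] [Module.Finite F V] : C (Module.End F V)ˣ := by
  let b := Module.finBasis F V
  exact hC.of_injective _ _ (Units.mapEquiv (algEquivMatrix b).toMulEquiv).toMonoidHom
    (Units.mapEquiv (algEquivMatrix b).toMulEquiv).injective (hGL _)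

/-- **extensions whose kernel acts on a free tower** -/
theorem tower [Nontrivial R] (hC : ClosedE C) (hGL : ∀ n : ℕ, C (GL (Fin n) F))
    {𝒮 : Set (Subalgebra F R)} (h𝒮 : Tower 𝒮) {G : Type} [Group G] (N : Subgroup G) [hN : N.Normal]
    (hQ : C (G ⧸ N)) (j : N →* Rˣ) (hj : Function.Injective j)
    (hact : ∀ g : G, ∃ (u : Rˣ) (β : R ≃ₐ[F] R), (∀ S ∈ 𝒮, S.map (β : R →ₐ[F] R) ∈ 𝒮) ∧
      ∀ x y : N, (y : G) = g * x * g⁻¹ →
        (j y : R) = (u : R) * β (j x : R) * ((u⁻¹ : Rˣ) : R)) : C G := by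
  classical
  refine Pool.Agent.R779.FJ.t_crit Pool.Agent.Y529.FJ.t_ext
    (Pool.Agent.Y961.FJ.t_perm Pool.Agent.Y529.FJ.t_ext) C hC G N hQ fun g E hE hEN => ?_
  obtain ⟨u, β, hβ, hu⟩ := hact g
  -- a finite set of elements in a member of `𝒮`
  have hfin : ∀ A : Set R, A.Finite → ∃ S ∈ 𝒮, ∀ x ∈ A, x ∈ S := by
    intro A hA
    induction A, hA using Set.Finite.induction_on with
    | empty =>
      obtain ⟨S, hS, -⟩ := h𝒮.cover 0
      exact ⟨S, hS, fun x hx => hx.elim⟩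
    | @insert a A _ _ ih =>
      obtain ⟨S, hS, h1⟩ := ih
      obtain ⟨T, hT, h2⟩ := h𝒮.cover a
      obtain ⟨U, hU, h3, h4⟩ := h𝒮.dir S hS T hT
      refine ⟨U, hU, ?_⟩
      rintro x (rfl | hx)
      · exact h4 h2
      · exact h3 (h1 x hx)
  have hEf : {x : N | (x : G) ∈ E}.Finite := hE.preimage Subtype.coe_injective.injOn
  obtain ⟨S, hS, hS1⟩ := hfin (((fun x : N => (j x : R)) '' {x : N | (x : G) ∈ E}) ∪
    ((fun x : N => ((j x)⁻¹ : Rˣ) : N → R) '' {x : N | (x : G) ∈ E}))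
    ((hEf.image _).union (hEf.image _))
  obtain ⟨T0, hT0, hT01⟩ := hfin {(u : R), ((u⁻¹ : Rˣ) : R)} (by simp)
  obtain ⟨T1, hT1, h1, h2⟩ := h𝒮.dir S hS _ (hβ S hS)
  obtain ⟨T, hT, h3, h4⟩ := h𝒮.dir T1 hT1 T0 hT0
  have hST : S ≤ T := h1.trans h3
  have hS'T : S.map (β : R →ₐ[F] R) ≤ T := h2.trans h3
  have huT : (u : R) ∈ T := h4 (hT01 _ (by simp))
  have huT' : ((u⁻¹ : Rˣ) : R) ∈ T := h4 (hT01 _ (by simp))
  have hjS : ∀ x : N, (x : G) ∈ E → (j x : R) ∈ S ∧ (((j x)⁻¹ : Rˣ) : R) ∈ S := fun x hx =>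
    ⟨hS1 _ (Or.inl ⟨x, hx, rfl⟩), hS1 _ (Or.inr ⟨x, hx, rfl⟩)⟩
  have : Module.Finite F S := h𝒮.fin S hS
  have : Module.Finite F T := h𝒮.fin T hT
  obtain ⟨p, hp⟩ := transfer β rfl hST hS'T (h𝒮.free S hS T hT hST)
    (h𝒮.free _ (hβ S hS) T hT hS'T)
  -- the subgroup
  have hle : Subgroup.closure (E ∪ (fun x => g * x * g⁻¹) '' E) ≤ N := by
    rw [Subgroup.closure_le]
    rintro _ (hx | ⟨x, hx, rfl⟩)
    · exact hEN hx
    · exact hN.conj_mem x (hEN hx) g
  have hmem : ∀ x : N, (x : G) ∈ Subgroup.closure (E ∪ (fun x => g * x * g⁻¹) '' E) →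
      j x ∈ T.toSubmonoid.units := by
    have h5 : Subgroup.closure (E ∪ (fun x => g * x * g⁻¹) '' E) ≤
        (T.toSubmonoid.units.comap j).map N.subtype := by
      rw [Subgroup.closure_le]
      rintro _ (hx | ⟨x, hx, rfl⟩)
      · refine ⟨⟨_, hEN hx⟩, ?_, rfl⟩
        obtain ⟨h6, h7⟩ := hjS ⟨_, hEN hx⟩ hx
        exact (Submonoid.mem_units_iff _ _).2 ⟨hST h6, hST h7⟩
      · refine ⟨⟨_, hN.conj_mem x (hEN hx) g⟩, ?_, rfl⟩
        obtain ⟨h6, h7⟩ := hjS ⟨_, hEN hx⟩ hx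
        have h8 := hu ⟨x, hEN hx⟩ ⟨_, hN.conj_mem x (hEN hx) g⟩ rfl
        have h9 := hu ⟨x⁻¹, inv_mem (hEN hx)⟩ (⟨_, hN.conj_mem x (hEN hx) g⟩⁻¹ : N) (by
          show (g * x * g⁻¹)⁻¹ = g * x⁻¹ * g⁻¹
          group)
        have h10 : j (⟨x⁻¹, inv_mem (hEN hx)⟩ : N) = (j ⟨x, hEN hx⟩)⁻¹ := by
          rw [← map_inv]
          rfl
        rw [h10, map_inv] at h9
        refine (Submonoid.mem_units_iff _ _).2 ⟨?_, ?_⟩
        · rw [h8]
          exact mul_mem (mul_mem huT (hS'T ⟨_, h6, rfl⟩)) huT'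
        · rw [h9]
          exact mul_mem (mul_mem huT (hS'T ⟨_, h7, rfl⟩)) huT'
    intro x hx
    obtain ⟨y, hy, hyx⟩ := h5 hx
    have h6 : y = x := Subtype.ext hyx
    rw [← h6]
    exact hy
  let f : Subgroup.closure (E ∪ (fun x => g * x * g⁻¹) '' E) →* (Module.End F T)ˣ :=
    (unitHom T).comp
      ((j.comp (Subgroup.inclusion hle)).codRestrict T.toSubmonoid.units fun x => hmem _ x.2)
  have hf : ∀ (x : Subgroup.closure (E ∪ (fun x => g * x * g⁻¹) '' E)) (z : T),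
      (((f x : (Module.End F T)ˣ) : Module.End F T) z : R) =
        ((j (Subgroup.inclusion hle x) : Rˣ) : R) * (z : R) := fun x z => rfl
  -- the conjugating element
  let p' : (Module.End F T)ˣ :=
    unitHom T ⟨u, (Submonoid.mem_units_iff _ _).2 ⟨huT, huT'⟩⟩ *
      ⟨p.toLinearMap, p.symm.toLinearMap, by ext z; simp, by ext z; simp⟩
  have hp' : ∀ z : T, (((p' : (Module.End F T)ˣ) : Module.End F T) z : R) =
      (u : R) * (p z : R) := fun z => rfl
  refine ⟨(Module.End F T)ˣ, inferInstance, f, p', C_end hC.base hGL T, ?_, ?_⟩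
  · refine (unitHom_injective T).comp ?_
    intro x y hxy
    have h5 : j (Subgroup.inclusion hle x) = j (Subgroup.inclusion hle y) :=
      congrArg Subtype.val hxy
    exact Subgroup.inclusion_injective hle (hj h5)
  · intro x y hx hy
    rw [eq_mul_inv_iff_mul_eq]
    apply Units.ext
    ext z
    show (((f y : (Module.End F T)ˣ) : Module.End F T)
        (((p' : (Module.End F T)ˣ) : Module.End F T) z) : R) =
      (((p' : (Module.End F T)ˣ) : Module.End F T)
        (((f x : (Module.End F T)ˣ) : Module.End F T) z) : R)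
    rw [hf, hp', hp']
    have h5 := hu (Subgroup.inclusion hle x) (Subgroup.inclusion hle y) hy
    have h6 := (hjS (Subgroup.inclusion hle x) hx).1
    have h7 : (((f x : (Module.End F T)ˣ) : Module.End F T) z) =
        ⟨((j (Subgroup.inclusion hle x) : Rˣ) : R) * (z : R), mul_mem (hST h6) z.2⟩ :=
      Subtype.ext (hf x z)
    rw [h7, hp _ h6 z, h5]
    simp only [mul_assoc]
    rw [Units.inv_mul_cancel_left]

end tower

end Pool.Agent.R941.FJ
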